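import Pool.Agent.L7h91.TWS.RegT
import Pool.Agent.L7h91.TW.Asm
import Pool.Agent.L7h91.IR.Sur3

/-!
# Independence up to the bound
-/

set_option autoImplicit false

namespace Pool.Agent.L7h91.TW

open Finset Pool.Agent.TH603.EL Pool.Agent.TH3.IR Pool.Agent.L7h91.IR

/-- the two last flattenings -/
theorem fin2S {ι σ : Type} [Fintype ι] [Fintype σ] [DecidableEq σ] {m : ℕ} {L R : ℝ}
    {μ ν : σ → ℝ} (hμ : ∀ i, 0 ≤ μ i) (hν : ∀ i, 0 ≤ ν i) {q l : σ} (hql : q ≠ l) {β t : ℝ}
    (ht : 0 < t) (hβ : 2 * (1 + 1 / t) ≤ β) (hk : β ^ 3 * t / 8 = Fintype.card ι)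
    (hsl : μ l + ν l = (t + 1) ^ 2 / t) (hsq : μ q + ν q = t + 1)
    (hsi : ∀ i, i ≠ q → i ≠ l → μ i + ν i = β * (t + 1) / 2)
    (hW : β * (t + 1) * (m + 2) / 2 ≤ R - L)
    (h1 : ∃ v : ℤ, β * (t + 1) / 2 - μ l = v) (h2 : ∃ v : ℤ, β ^ 2 * t / 4 - μ q = v) :
    SurS (fun _ : ι => m) (RegS L R μ ν) := by
  obtain ⟨v, hv⟩ := h1
  obtain ⟨v', hv'⟩ := h2
  have hβ2 : 2 < β := by
    have : 0 < 1 / t := by positivity
    linarith
  have hβ0 : 0 < β := by linarith
  have hβt : 2 * (t + 1) ≤ β * t := by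
    have := mul_le_mul_of_nonneg_right hβ ht.le
    have e : 2 * (1 + 1 / t) * t = 2 * (t + 1) := by field_simp
    linarith
  have hpos : ∀ i, 0 < μ i + ν i := by
    intro i
    by_cases h1 : i = q
    · subst h1
      rw [hsq]
      linarith
    · by_cases h2 : i = l
      · subst h2
        rw [hsl]
        positivity
      · rw [hsi i h1 h2]
        positivity
  have hlam : β * t / (2 * (t + 1)) * ((t + 1) ^ 2 / t) = β * (t + 1) / 2 := by field_simp
  refine flatS' (lam := β * t / (2 * (t + 1))) hμ hν hpos l v ?_ (by positivity) ?_ ?_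
  · rw [← hv]
    have h3 : (t + 1) ^ 2 / t ≤ β * (t + 1) / 2 := by
      rw [div_le_iff₀ ht]
      nlinarith
    linarith
  · rw [hsl, hlam, ← hv]
    ring
  intro L1 R1 μ1 ν1 hμ1 hν1 hW1 hs1 hleft
  have hs1q : μ1 q + ν1 q = β * t / 2 := by
    rw [hs1, Function.update_of_ne hql, hsq]
    field_simp
  have hs1l : μ1 l + ν1 l = β ^ 2 * t / 4 := by
    rw [hs1, Function.update_self, hsl]
    field_simp
    ring
  have hs1i : ∀ i, i ≠ q → i ≠ l → μ1 i + ν1 i = β ^ 2 * t / 4 := by
    intro i h1 h2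
    rw [hs1, Function.update_of_ne h2, hsi i h1 h2]
    field_simp
    ring
  have hpos1 : ∀ i, 0 < μ1 i + ν1 i := by
    intro i
    by_cases h1 : i = q
    · subst h1
      rw [hs1q]
      positivity
    · by_cases h2 : i = l
      · subst h2
        rw [hs1l]
        positivity
      · rw [hs1i i h1 h2]
        positivity
  refine flatS' (lam := β / 2) hμ1 hν1 hpos1 q v' ?_ (by positivity) ?_ ?_
  · rw [← hv', ← hleft q hql]
    have h3 : β * t / 2 ≤ β ^ 2 * t / 4 := by nlinarith [mul_pos hβ0 ht]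
    linarith
  · rw [hs1q, ← hv', ← hleft q hql]
    ring
  intro L2 R2 μ2 ν2 hμ2 hν2 hW2 hs2 _
  apply SurS_final hμ2 hν2
  · intro i
    rw [hs2, ← hk]
    apply le_of_eq
    by_cases h1 : i = q
    · subst h1
      rw [Function.update_self, hs1q]
      ring
    · rw [Function.update_of_ne h1]
      by_cases h2 : i = l
      · subst h2
        rw [hs1l]
        ring
      · rw [hs1i i h1 h2]
        ring
  · rw [hW2, hW1, hsl, hs1q, ← hk]
    have e1 : (β * t / (2 * (t + 1))) ^ 2 * ((t + 1) ^ 2 / t) = β ^ 2 * t / 4 := by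
      field_simp
      ring
    rw [e1]
    have h3 : β ^ 2 * t * (m + 2) / 4 ≤ β * t / (2 * (t + 1)) * (R - L) := by
      refine le_trans (le_of_eq ?_) (mul_le_mul_of_nonneg_left hW (by positivity))
      field_simp
      ring
    nlinarith

/-- reflection -/
theorem reflS {ι σ : Type} [Fintype ι] [Fintype σ] {w : ι → ℕ} {L R : ℝ} {μ ν : σ → ℝ}
    (h : SurS w (RegS (-R) (-L) ν μ)) : SurS w (RegS L R μ ν) := by
  refine h.comap (-1) (Or.inr rfl) 0 0 ?_
  rintro ⟨x, y⟩ ⟨k1, k2, k3⟩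
  simp only at k1 k2 k3
  refine ⟨k1, ?_, ?_⟩
  · simp only [Pi.zero_apply, zero_mul, Finset.sum_const_zero, sub_zero]
    push_cast
    linarith
  · simp only [Pi.zero_apply, zero_mul, Finset.sum_const_zero, sub_zero]
    push_cast
    linarith

/-- the treatment of the last direction -/
theorem baseXS {ι σ : Type} [Fintype ι] [Fintype σ] [DecidableEq σ] (m : ℕ) {β : ℝ}
    (hβ0 : 2 ≤ β) (hβ : 2 * (1 + 1 / (8 * β ^ (Fintype.card σ - 2))) ≤ β)
    (hk : β ^ (Fintype.card σ + 1) = Fintype.card ι) (l q : σ) (hlq : l ≠ q) :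
    ∀ T : Finset σ, l ∉ T → q ∉ T → T.card + 2 = Fintype.card σ →
      ∀ (L R : ℝ) (μ ν : σ → ℝ), (∀ i, 0 ≤ μ i) → (∀ i, 0 ≤ ν i) →
        β ^ T.card * (2 * β * m + 4 * β + 2) + 1 ≤ R - L → (∀ i, μ i + ν i = sl β l T i) →
        (3 / 2 ≤ ν q ∨ 1 ≤ T.card) → SurS (fun _ : ι => m) (RegS L R μ ν) := by
  intro T hl hq hT L R μ ν hμ hν hW hs hready
  have hcard2 : Fintype.card σ - 2 = T.card := by omega
  rw [hcard2] at hβ
  have hc1 : Fintype.card σ = T.card + 2 := by omega
  rw [hc1] at hk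
  have hβ1 : 1 ≤ β := by linarith
  have hβp : 0 < β := by linarith
  have hone := one_le_pow₀ hβ1 (n := T.card)
  obtain ⟨t, ht⟩ : ∃ t, t = 8 * β ^ T.card := ⟨_, rfl⟩
  rw [← ht] at hβ
  have ht8 : 8 ≤ t := by rw [ht]; linarith
  have ht0 : 0 < t := by linarith
  have hsl : sl β l T l = t / 2 := by
    unfold Pool.Agent.L7h91.IR.sl
    rw [if_pos rfl, ht]
    ring
  have hsq : sl β l T q = t / 4 := by
    unfold Pool.Agent.L7h91.IR.sl
    rw [if_neg (Ne.symm hlq), if_neg hq, ht]
    ring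
  have hsi : ∀ i, i ≠ q → i ≠ l → sl β l T i = β * t / 4 := by
    intro i h2 h1
    have h0 : i ∈ T := by
      by_contra h3
      have h4 : (insert i (insert l (insert q T))).card = T.card + 3 := by
        rw [Finset.card_insert_of_notMem, Finset.card_insert_of_notMem,
          Finset.card_insert_of_notMem hq]
        · simp [hl, hlq]
        · simp [h1, h2, h3]
      have h5 := Finset.card_le_univ (insert i (insert l (insert q T)))
      omega
    unfold Pool.Agent.L7h91.IR.sl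
    rw [if_neg h1, if_pos h0, ht]
    ring
  have hql : q ≠ l := Ne.symm hlq
  obtain ⟨W, hWd⟩ : ∃ W, W = R - L - t / 4 := ⟨_, rfl⟩
  have hWb : t * β * (m + 2) / 4 + 1 ≤ W := by
    have e : β ^ T.card = t / 8 := by rw [ht]; ring
    rw [e] at hW
    rw [hWd]
    linarith
  have hWb2 : β * (t + 1) * (m + 2) / 2 ≤ 2 * W * (1 + 1 / t) - 2 := by
    have h1 := mul_le_mul_of_nonneg_right hWb (by positivity : 0 ≤ 2 * (1 + 1 / t))
    have e1 : (t * β * (m + 2) / 4 + 1) * (2 * (1 + 1 / t)) = β * (t + 1) * (m + 2) / 2 + 2 +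
        2 * (1 / t) := by
      field_simp
      ring
    rw [e1] at h1
    have h2 : 0 < 1 / t := by positivity
    linarith
  obtain ⟨θ, hθ⟩ : ∃ θ, θ = β * (t + 1) / 2 - β ^ 2 * t / 4 := ⟨_, rfl⟩
  have hk' : β ^ 3 * t / 8 = Fintype.card ι := by
    rw [← hk, ht]
    ring
  have key : ∀ τ a : ℝ, 0 < τ → τ < a → a < 1 →
      SurS (fun _ : ι => m) (RegS (-(2 * W * (τ + a / t)) + a + 1 / 2)
        (2 * W * (1 - τ + (1 - a) / t) - (1 - a) - 1 / 2)
        (sm (sl β l T) q l τ a) (sm (sl β l T) q l (1 - τ) (1 - a))) →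
      SurS (fun _ : ι => m) (RegS L R μ ν) := by
    intro τ a h1 h2 h3 h4
    refine SurS_twist hμ hν hql ?_ ?_ h1 h2 h3 (s := sl β l T) hs (W := W) (by rw [hWd, hsq])
      (ε := 1 / 2) (by norm_num) ?_
    · rcases hready with h5 | h5
      · exact Or.inr h5
      · left
        rw [hs, hsq, ht]
        have : β ^ 1 ≤ β ^ T.card := pow_le_pow_right₀ hβ1 h5
        rw [pow_one] at this
        linarith
    · rw [hs, hsl]
      linarith
    · rw [hsl, show 2 * (t / 2) = t by ring]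
      exact h4
  have esm_l : ∀ τ a : ℝ, sm (sl β l T) q l τ a l = t * τ + (2 + 1 / t) * a := by
    intro τ a
    rw [sm_l, hsl, show 2 * (t / 2) = t by ring]
  have esm_q : ∀ τ a : ℝ, sm (sl β l T) q l τ a q = t * τ + a := by
    intro τ a
    rw [sm_q _ hql, hsl, hsq, show 2 * (t / 2) = t by ring]
    field_simp
  have esm_i : ∀ τ a : ℝ, ∀ i, i ≠ q → i ≠ l →
      sm (sl β l T) q l τ a i = β * (t * τ + a) / 2 := by
    intro τ a i h1 h2
    rw [sm_i _ h1 h2, hsl, hsi i h1 h2, show 2 * (t / 2) = t by ring]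
    field_simp
    ring
  have hnn : ∀ τ a : ℝ, 0 ≤ τ → 0 ≤ a → ∀ i, 0 ≤ sm (sl β l T) q l τ a i := by
    intro τ a h1 h2 i
    by_cases h3 : i = q
    · subst h3
      rw [esm_q]
      positivity
    · by_cases h4 : i = l
      · subst h4
        rw [esm_l]
        positivity
      · rw [esm_i τ a i h3 h4]
        positivity
  rcases good (θ := θ) ht8 with hg | hg
  · obtain ⟨τ, a, h1, h2, h3, ⟨n, hn⟩, m', hm⟩ := solve (χ := β ^ 2 * t / 4) (by linarith) hg
    apply key τ a h1 h2 h3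
    refine fin2S (hnn τ a h1.le (by linarith)) (hnn (1 - τ) (1 - a) (by linarith) (by linarith)) hql
      (β := β) (t := t) ht0 hβ hk' ?_ ?_ ?_ ?_ ⟨-m' - n, ?_⟩ ⟨-m', ?_⟩
    · rw [esm_l, esm_l]
      field_simp
      ring
    · rw [esm_q, esm_q]
      ring
    · intro i h4 h5
      rw [esm_i _ _ i h4 h5, esm_i _ _ i h4 h5]
      ring
    · refine hWb2.trans (le_of_eq ?_)
      field_simp
      ring
    · rw [esm_l]
      push_cast
      rw [hθ] at hn
      linarith
    · rw [esm_q]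
      push_cast
      linarith
  · obtain ⟨τ, a, h1, h2, h3, ⟨n, hn⟩, m', hm⟩ :=
      solve (χ := t + 1 - β ^ 2 * t / 4) (by linarith) hg
    apply key τ a h1 h2 h3
    apply reflS
    refine fin2S (hnn (1 - τ) (1 - a) (by linarith) (by linarith)) (hnn τ a h1.le (by linarith)) hql
      (β := β) (t := t) ht0 hβ hk' ?_ ?_ ?_ ?_ ⟨m' + n - 1, ?_⟩ ⟨m', ?_⟩
    · rw [esm_l, esm_l]
      field_simp
      ring
    · rw [esm_q, esm_q]
      ring
    · intro i h4 h5
      rw [esm_i _ _ i h4 h5, esm_i _ _ i h4 h5]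
      ring
    · refine hWb2.trans (le_of_eq ?_)
      field_simp
      ring
    · rw [esm_l]
      push_cast
      rw [hθ] at hn
      linarith
    · rw [esm_q]
      push_cast
      linarith

/-- the induction over the directions; `l` is the first and `q` the last one, whose treatment is
the hypothesis `Base` -/
theorem runS_genX {ι σ : Type} [Fintype ι] [Fintype σ] [DecidableEq σ] (m : ℕ) {β : ℝ}
    (hβ : 2 ≤ β) (l q : σ) (hlq : l ≠ q)
    (Base : ∀ T : Finset σ, l ∉ T → q ∉ T → T.card + 2 = Fintype.card σ →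
      ∀ (L R : ℝ) (μ ν : σ → ℝ), (∀ i, 0 ≤ μ i) → (∀ i, 0 ≤ ν i) →
        β ^ T.card * (2 * β * m + 4 * β + 2) + 1 ≤ R - L →
        (∀ i, μ i + ν i = sl β l T i) → (∃ v : ℤ, ν l = v) →
        SurS (fun _ : ι => m) (RegS L R μ ν)) (c : ℕ) :
    ∀ T : Finset σ, l ∉ T → q ∉ T → T.card + c + 2 = Fintype.card σ →
      ∀ (L R : ℝ) (μ ν : σ → ℝ), (∀ i, 0 ≤ μ i) → (∀ i, 0 ≤ ν i) →
        β ^ T.card * (2 * β * m + 4 * β + 2 + c * (2 + 2 * β)) + 1 ≤ R - L →
        (∀ i, μ i + ν i = sl β l T i) → (∃ v : ℤ, ν l = v) →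
        (∀ j, j ≠ l → j ∉ T → ReadyS (fun _ : ι => m) L R μ ν j) →
        SurS (fun _ : ι => m) (RegS L R μ ν) := by
  have hβ0 : 0 < β := by linarith
  have hβ1 : 1 ≤ β := by linarith
  induction c with
  | zero =>
    intro T hl hq hT L R μ ν hμ hν hW hs hvl _
    refine Base T hl hq (by omega) L R μ ν hμ hν ?_ hs hvl
    refine le_trans (le_of_eq ?_) hW
    push_cast
    ring
  | succ c ih =>
    intro T hl hq hT L R μ ν hμ hν hW hs hvl hready
    have hpos : ∀ i, 0 < μ i + ν i := fun i => by rw [hs]; exact sl_pos hβ0 l T i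
    obtain ⟨j, hj, hjl, hjq⟩ : ∃ j, j ∉ T ∧ j ≠ l ∧ j ≠ q := by
      by_contra hcon
      push Not at hcon
      have h1 : (Finset.univ : Finset σ) ⊆ insert l (insert q T) := by
        intro i _
        rw [Finset.mem_insert, Finset.mem_insert]
        by_cases h2 : i ∈ T
        · exact Or.inr (Or.inr h2)
        · by_cases h3 : i = l
          · exact Or.inl h3
          · exact Or.inr (Or.inl (hcon i h2 h3))
      have h2 := Finset.card_le_card h1
      have h3 := Finset.card_insert_le l (insert q T)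
      have h4 := Finset.card_insert_le q T
      rw [Finset.card_univ] at h2
      omega
    have hsj : μ j + ν j = 2 * β ^ T.card := by
      rw [hs]
      unfold Pool.Agent.L7h91.IR.sl
      rw [if_neg hjl, if_neg hj]
    have hsl : μ l + ν l = 4 * β ^ T.card := by
      rw [hs]
      unfold Pool.Agent.L7h91.IR.sl
      rw [if_pos rfl]
    have hone : 1 ≤ μ j + ν j := by
      rw [hsj]
      have := one_le_pow₀ hβ1 (n := T.card)
      linarith
    have hc : (insert j T).card = T.card + 1 := Finset.card_insert_of_notMem hj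
    refine nodalS' hμ hν hpos j l (Ne.symm hjl) hone (hready j hjl hj) hβ ?_
    intro L' R' μ' ν' hμ' hν' hW' hs' hv'
    have hs2 : ∀ i, μ' i + ν' i = sl β l (insert j T) i := by
      intro i
      rw [hs']
      by_cases hi : i = j
      · subst hi
        rw [Function.update_self, hsj]
        unfold Pool.Agent.L7h91.IR.sl
        rw [if_neg hjl, if_pos (Finset.mem_insert_self i T), hc]
        ring
      · rw [Function.update_of_ne hi, hs]
        unfold Pool.Agent.L7h91.IR.sl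
        rw [hc]
        by_cases hil : i = l
        · rw [if_pos hil, if_pos hil]
          ring
        · rw [if_neg hil, if_neg hil]
          by_cases hiT : i ∈ T
          · rw [if_pos hiT, if_pos (Finset.mem_insert_of_mem hiT)]
            ring
          · have hiT' : i ∉ insert j T := by rw [Finset.mem_insert]; tauto
            rw [if_neg hiT, if_neg hiT']
            ring
    refine ih (insert j T) ?_ ?_ (by omega) L' R' μ' ν' hμ' hν' ?_ hs2 ?_ ?_
    · rw [Finset.mem_insert]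
      push Not
      exact ⟨Ne.symm hjl, hl⟩
    · rw [Finset.mem_insert]
      push Not
      exact ⟨Ne.symm hjq, hq⟩
    · rw [hW', hsj, hc]
      have h3 := mul_le_mul_of_nonneg_left hW hβ0.le
      push_cast at h3 ⊢
      have h4 : β * (β ^ T.card * (2 * β * m + 4 * β + 2 + ((c : ℝ) + 1) * (2 + 2 * β)) + 1) =
          β ^ (T.card + 1) * (2 * β * m + 4 * β + 2 + (c : ℝ) * (2 + 2 * β)) +
            2 * β ^ (T.card + 1) + 2 * β ^ (T.card + 2) + 1 * β := by
        ring
      have h5 : β * (2 * β ^ T.card) = 2 * β ^ (T.card + 1) := by ring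
      have h6 : β ^ 2 * (2 * β ^ T.card) = 2 * β ^ (T.card + 2) := by ring
      rw [h4] at h3
      rw [h5, h6]
      linarith
    · exact hv' (by rw [hsl, hsj]; ring)
    · intro i hil hiT
      refine readyS_of hμ' hν' (fun i => by rw [hs2]; exact sl_pos hβ0 l _ i) i ?_
      rw [hs2]
      unfold Pool.Agent.L7h91.IR.sl
      rw [if_neg hil, if_neg hiT, hc]
      have : β ^ 1 ≤ β ^ (T.card + 1) := pow_le_pow_right₀ hβ1 (by omega)
      rw [pow_one] at this
      linarith

/-- independence on the simplex of size `d` in dimension `card σ + 1 ≥ 3` -/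
theorem SurS_simplexX {ι σ : Type} [Fintype ι] [Fintype σ] (hσ : 2 ≤ Fintype.card σ)
    (m : ℕ) {β : ℝ}
    (hβ0 : 2 ≤ β) (hβ : 2 * (1 + 1 / (8 * β ^ (Fintype.card σ - 2))) ≤ β)
    (hk : β ^ (Fintype.card σ + 1) = Fintype.card ι)
    (d : ℕ) (hd : β * (m + Fintype.card σ) + Fintype.card σ + 3 / 2 ≤ d) :
    SurS (fun _ : ι => m) (RegS (0 : ℝ) d (fun _ : σ => 0) (fun _ => 1)) := by
  classical
  obtain ⟨l, q, hlq⟩ : ∃ l q : σ, l ≠ q := by
    have : 1 < Fintype.card σ := by omega
    exact Fintype.one_lt_card_iff.1 this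
  have e1 : RegS ((0 : ℝ) + (0 + ((2 : ℤ) : ℝ)))
      (((d : ℝ) * (0 + ((2 : ℤ) : ℝ)) - 0 * (((2 : ℤ) : ℝ) - 1) -
        (0 + ((2 : ℤ) : ℝ)) * (((2 : ℤ) : ℝ) - 1)) / (0 + 1))
      (Function.update (fun _ : σ => (0 : ℝ)) l (0 + ((2 : ℤ) : ℝ)))
      (Function.update (fun _ : σ => ((1 : ℝ) * (0 + ((2 : ℤ) : ℝ)) + 0 * (((2 : ℤ) : ℝ) - 1)) / (0 + 1)) l
        ((0 + ((2 : ℤ) : ℝ)) * (((2 : ℤ) : ℝ) - 1) / (0 + 1))) =
      RegS (2 : ℝ) (2 * d - 2) (Function.update (fun _ : σ => (0 : ℝ)) l 2) (fun _ => 2) := by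
    congr 1
    · push_cast
      ring
    · push_cast
      ring
    · norm_num
    · funext i
      by_cases hi : i = l
      · subst hi
        rw [Function.update_self]
        norm_num
      · rw [Function.update_of_ne hi]
        norm_num
  refine SurS_flat (fun _ => le_refl _) (fun _ => zero_le_one) (fun _ => by norm_num) l 2
    (by norm_num) (by norm_num) ?_
  rw [e1]
  have hμ : ∀ i, 0 ≤ Function.update (fun _ : σ => (0 : ℝ)) l 2 i := by
    intro i
    by_cases hi : i = l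
    · subst hi
      rw [Function.update_self]
      norm_num
    · rw [Function.update_of_ne hi]
  have hsl : ∀ i, Function.update (fun _ : σ => (0 : ℝ)) l 2 i + 2 = sl β l ∅ i := by
    intro i
    unfold Pool.Agent.L7h91.IR.sl
    rw [Finset.card_empty]
    by_cases hi : i = l
    · subst hi
      rw [Function.update_self, if_pos rfl]
      norm_num
    · rw [Function.update_of_ne hi, if_neg hi, if_neg (by simp)]
      norm_num
  by_cases h2 : Fintype.card σ = 2
  · refine baseXS m hβ0 hβ hk l q hlq ∅ (by simp) (by simp)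
      (by rw [Finset.card_empty]; omega) 2 (2 * d - 2) _ _ hμ (fun _ => by norm_num) ?_ hsl
      (Or.inl (by norm_num))
    rw [Finset.card_empty, pow_zero]
    rw [h2] at hd
    push_cast at hd
    linarith
  · refine runS_genX m hβ0 l q hlq ?_
      (Fintype.card σ - 2) ∅ (by simp) (by simp)
      (by rw [Finset.card_empty]; omega) 2 (2 * d - 2) _ _ hμ (fun _ => by norm_num) ?_ hsl ?_ ?_
    · intro T h3 h4 h5 L R μ ν h6 h7 h8 h9 _
      exact baseXS m hβ0 hβ hk l q hlq T h3 h4 h5 L R μ ν h6 h7 h8 h9 (Or.inr (by omega))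
    · rw [Finset.card_empty, pow_zero]
      have h1 : ((Fintype.card σ - 2 : ℕ) : ℝ) = (Fintype.card σ : ℝ) - 2 := by
        rw [Nat.cast_sub hσ]
        norm_num
      rw [h1]
      linarith
    · exact ⟨2, by norm_num⟩
    · intro j _ _ τ h0 h1 h
      exact SN.nodal_pos (by norm_num) hμ (fun _ => by norm_num) j (by norm_num) h0 h1 h

end Pool.Agent.L7h91.TW
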