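import Pool.Agent.L7h91.TWS.Lift
import Pool.Agent.L7h91.TW.StepB

/-!
# Leading terms of combinations
-/

set_option autoImplicit false

namespace Pool.Agent.L7h91.TW

open Finset Pool.Agent.TH603.EL Pool.Agent.TH3.IR Pool.Agent.TH3.IR.Comap

section

variable {F : Type} [Field F] {σ : Type}

theorem φ0_coeff (c : HK F) (a : ℝ) : (φ0 F σ c).coeff a =
    AddMonoidAlgebra.single (0 : ℤ × (σ → ℤ)) (c.coeff a) := rfl

theorem φ0_low {c : HK F} {a : ℝ} (h : Low c a) : Low (φ0 F σ c) a := by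
  intro b hb
  rw [φ0_coeff, h b hb]
  simp

theorem φe_coeff (p : Ae F) (n : ℕ) : (φe F σ p).coeff n = φ0 F σ (p.coeff n) := by
  unfold φe
  rw [Polynomial.coe_mapRingHom, Polynomial.coeff_map]

/-- the leading term of a combination of elements with monomial leading coefficients -/
theorem assemble {T : Type} [Fintype T] {X : T → Re F σ} {A : T → ℕ} {α : T → ℝ}
    {m : T → ℤ × (σ → ℤ)} {c : T → F} (hc : ∀ t, c t ≠ 0)
    (h1 : ∀ t, ∀ n < A t, (X t).coeff n = 0) (h2 : ∀ t, Low ((X t).coeff (A t)) (α t))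
    (h3 : ∀ t, ((X t).coeff (A t)).coeff (α t) = AddMonoidAlgebra.single (m t) (c t))
    (κ : T → Ae F) (hκ : ∃ t, κ t ≠ 0) :
    ∃ (A0 : ℕ) (a0 : ℝ) (v : T → F), (∃ t, v t ≠ 0) ∧
      ((∑ t, φe F σ (κ t) * X t).coeff A0).coeff a0 =
        ∑ t, AddMonoidAlgebra.single (m t) (v t) := by
  classical
  obtain ⟨t1, ht1⟩ := hκ
  obtain ⟨n1, hn1⟩ : ∃ n, (κ t1).coeff n ≠ 0 := by
    by_contra hcon
    push Not at hcon
    apply ht1
    ext1 n
    rw [hcon n, Polynomial.coeff_zero]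
  have hex : ∃ N, ∃ t n, (κ t).coeff n ≠ 0 ∧ n + A t = N := ⟨_, t1, n1, hn1, rfl⟩
  obtain ⟨A0, hA0⟩ : ∃ A0, A0 = Nat.find hex := ⟨_, rfl⟩
  obtain ⟨t0, n0, hn0, hs0⟩ := Nat.find_spec hex
  rw [← hA0] at hs0
  have hmin : ∀ t n, (κ t).coeff n ≠ 0 → A0 ≤ n + A t := by
    intro t n h
    rw [hA0]
    exact Nat.find_min' hex ⟨t, n, h, rfl⟩
  obtain ⟨κ', hκ'⟩ : ∃ κ' : T → HK F, ∀ t, κ' t = if A t ≤ A0 then (κ t).coeff (A0 - A t) else 0 :=
    ⟨fun t => _, fun t => rfl⟩
  have hco : ∀ t, (φe F σ (κ t) * X t).coeff A0 = φ0 F σ (κ' t) * (X t).coeff (A t) := by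
    intro t
    rw [Polynomial.coeff_mul, hκ']
    by_cases hle : A t ≤ A0
    · rw [if_pos hle, Finset.sum_eq_single (A0 - A t, A t)]
      · rw [φe_coeff]
      · rintro ⟨i, j⟩ hij hne
        rw [HasAntidiagonal.mem_antidiagonal] at hij
        rw [φe_coeff]
        by_cases hj : j < A t
        · rw [h1 t j hj, mul_zero]
        · by_cases hi : (κ t).coeff i = 0
          · rw [hi, map_zero, zero_mul]
          · exfalso
            have := hmin t i hi
            apply hne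
            simp only at hij
            rw [Prod.mk.injEq]
            omega
      · intro h
        exfalso
        apply h
        rw [HasAntidiagonal.mem_antidiagonal]
        simp only
        omega
    · rw [if_neg hle, map_zero, zero_mul]
      apply Finset.sum_eq_zero
      rintro ⟨i, j⟩ hij
      rw [HasAntidiagonal.mem_antidiagonal] at hij
      simp only at hij
      rw [h1 t j (by omega), mul_zero]
  have hk0 : κ' t0 ≠ 0 := by
    rw [hκ', if_pos (by omega)]
    have : A0 - A t0 = n0 := by omega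
    rw [this]
    exact hn0
  obtain ⟨t2, ht2, hmin2⟩ := Finset.exists_min_image (univ.filter fun t : T => κ' t ≠ 0)
    (fun t => (κ' t).order + α t) ⟨t0, by simpa using hk0⟩
  rw [Finset.mem_filter] at ht2
  obtain ⟨a0, ha0⟩ : ∃ a0, a0 = (κ' t2).order + α t2 := ⟨_, rfl⟩
  have hlow : ∀ t, Low (κ' t) (a0 - α t) := by
    intro t b hb
    by_cases h : κ' t = 0
    · rw [h]
      rfl
    · apply HahnSeries.coeff_eq_zero_of_lt_order
      have := hmin2 t (by simpa using h)
      linarith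
  refine ⟨A0, a0, fun t => (κ' t).coeff (a0 - α t) * c t, ⟨t2, ?_⟩, ?_⟩
  · apply mul_ne_zero _ (hc t2)
    rw [ha0, add_sub_cancel_right]
    intro h
    exact ht2.2 (HahnSeries.coeff_order_eq_zero.mp h)
  · rw [Polynomial.finsetSum_coeff, HahnSeries.coeff_sum]
    refine Finset.sum_congr rfl fun t _ => ?_
    rw [hco t]
    have h4 := (φ0_low (σ := σ) (hlow t)).coeff_mul (h2 t)
    rw [sub_add_cancel] at h4
    rw [h4, h3, φ0_coeff, AddMonoidAlgebra.single_mul_single, zero_add]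

end

section evR

variable {A R σ : Type} [CommRing A] [CommRing R] [Fintype σ]

theorem evR_single (φ : A →+* R) (U0 : R) (U : σ → R) (m : ℤ × (σ → ℤ)) (c : A) :
    evR φ U0 U (Finsupp.single m c) = φ c * (U0 ^ m.1.toNat * ∏ i, U i ^ (m.2 i).toNat) := by
  unfold evR
  rw [Finsupp.sum_single_index]
  rw [map_zero, zero_mul]

theorem evR_add (φ : A →+* R) (U0 : R) (U : σ → R) (f g : (ℤ × (σ → ℤ)) →₀ A) :
    evR φ U0 U (f + g) = evR φ U0 U f + evR φ U0 U g := by
  unfold evR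
  apply Finsupp.sum_add_index'
  · intro m
    rw [map_zero, zero_mul]
  · intro m b c
    rw [map_add, add_mul]

theorem evR_zero (φ : A →+* R) (U0 : R) (U : σ → R) :
    evR φ U0 U (0 : (ℤ × (σ → ℤ)) →₀ A) = 0 := by
  unfold evR
  exact Finsupp.sum_zero_index

theorem evR_sum (φ : A →+* R) (U0 : R) (U : σ → R) {κ : Type} (s : Finset κ)
    (f : κ → (ℤ × (σ → ℤ)) →₀ A) :
    evR φ U0 U (∑ k ∈ s, f k) = ∑ k ∈ s, evR φ U0 U (f k) := by
  classical
  induction s using Finset.induction_on with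
  | empty => rw [Finset.sum_empty, Finset.sum_empty, evR_zero]
  | insert a s ha ih => rw [Finset.sum_insert ha, Finset.sum_insert ha, evR_add, ih]

theorem evR_smul (φ : A →+* R) (U0 : R) (U : σ → R) (κ : A) (f : (ℤ × (σ → ℤ)) →₀ A) :
    evR φ U0 U (κ • f) = φ κ * evR φ U0 U f := by
  unfold evR
  rw [Finsupp.sum_smul_index (fun m => by rw [map_zero, zero_mul])]
  unfold Finsupp.sum
  rw [Finset.mul_sum]
  refine Finset.sum_congr rfl fun m _ => ?_
  show φ (κ * f m) * _ = _
  rw [map_mul, mul_assoc]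

end evR

end Pool.Agent.L7h91.TW
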