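import Pool.Agent.L7h91.TWS.Elev3
import Pool.Agent.L7h91.TW.StepA
import Pool.Agent.TH3.IR.Lift0

/-!
# Lifting of monomials by counting
-/

set_option autoImplicit false

namespace Pool.Agent.L7h91.TW

open Finset Pool.Agent.TH603.EL Pool.Agent.TH3.IR Pool.Agent.TH3.IR.Pair Pool.Agent.TH3.IR.Lft

/-- an injective linear map to a space of at most the same dimension is surjective -/
theorem lin_surj {K I J : Type} [Field K] [Fintype I] [Fintype J] (Ψ : (I → K) →ₗ[K] (J → K))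
    (hΨ : ∀ a, Ψ a = 0 → a = 0) (hc : Fintype.card J ≤ Fintype.card I) :
    Function.Surjective Ψ := by
  have hinj : Function.Injective Ψ := by
    rw [← LinearMap.ker_eq_bot]
    rw [LinearMap.ker_eq_bot']
    exact hΨ
  have h1 := LinearMap.finrank_le_finrank_of_injective hinj
  rw [Module.finrank_fintype_fun_eq_card, Module.finrank_fintype_fun_eq_card] at h1
  have h2 : Module.finrank K (I → K) = Module.finrank K (J → K) := by
    rw [Module.finrank_fintype_fun_eq_card, Module.finrank_fintype_fun_eq_card]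
    omega
  exact (LinearMap.injective_iff_surjective_of_finrank_eq_finrank h2).1 hinj

section pol

variable {F : Type} [Field F]

/-- the first polynomial -/
noncomputable def polA (M : ℕ) (u : (Σ _ : ℕ, ℕ ⊕ ℕ) → HK F) (n : ℕ) : Polynomial (HK F) :=
  ∑ x ∈ range M, Polynomial.monomial x (u ⟨n, Sum.inl x⟩)

/-- the second polynomial -/
noncomputable def polB (M : ℕ) (u : (Σ _ : ℕ, ℕ ⊕ ℕ) → HK F) (n : ℕ) : Polynomial (HK F) :=
  ∑ x ∈ range M, Polynomial.monomial x (u ⟨n, Sum.inr x⟩)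

theorem polA_coeff (M : ℕ) (u : (Σ _ : ℕ, ℕ ⊕ ℕ) → HK F) (n x : ℕ) :
    (polA M u n).coeff x = if x < M then u ⟨n, Sum.inl x⟩ else 0 := by
  unfold polA
  rw [Polynomial.finsetSum_coeff]
  simp_rw [Polynomial.coeff_monomial]
  rw [Finset.sum_ite_eq']
  simp only [Finset.mem_range]

theorem polB_coeff (M : ℕ) (u : (Σ _ : ℕ, ℕ ⊕ ℕ) → HK F) (n x : ℕ) :
    (polB M u n).coeff x = if x < M then u ⟨n, Sum.inr x⟩ else 0 := by
  unfold polB
  rw [Polynomial.finsetSum_coeff]
  simp_rw [Polynomial.coeff_monomial]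
  rw [Finset.sum_ite_eq']
  simp only [Finset.mem_range]

theorem polA_add (M : ℕ) (u v : (Σ _ : ℕ, ℕ ⊕ ℕ) → HK F) (n : ℕ) :
    polA M (u + v) n = polA M u n + polA M v n := by
  ext x : 1
  rw [Polynomial.coeff_add, polA_coeff, polA_coeff, polA_coeff]
  split_ifs
  · rfl
  · rw [add_zero]

theorem polB_add (M : ℕ) (u v : (Σ _ : ℕ, ℕ ⊕ ℕ) → HK F) (n : ℕ) :
    polB M (u + v) n = polB M u n + polB M v n := by
  ext x : 1
  rw [Polynomial.coeff_add, polB_coeff, polB_coeff, polB_coeff]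
  split_ifs
  · rfl
  · rw [add_zero]

theorem polA_smul (M : ℕ) (κ : HK F) (u : (Σ _ : ℕ, ℕ ⊕ ℕ) → HK F) (n : ℕ) :
    polA M (κ • u) n = Polynomial.C κ * polA M u n := by
  ext x : 1
  rw [Polynomial.coeff_C_mul, polA_coeff, polA_coeff]
  split_ifs
  · rfl
  · rw [mul_zero]

theorem polB_smul (M : ℕ) (κ : HK F) (u : (Σ _ : ℕ, ℕ ⊕ ℕ) → HK F) (n : ℕ) :
    polB M (κ • u) n = Polynomial.C κ * polB M u n := by
  ext x : 1
  rw [Polynomial.coeff_C_mul, polB_coeff, polB_coeff]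
  split_ifs
  · rfl
  · rw [mul_zero]

/-- the values -/
noncomputable def phi (c b : HR F) (M : ℕ) (u : (Σ _ : ℕ, ℕ ⊕ ℕ) → HK F) (n : ℕ) : HR F :=
  pv c b (polA M u n) (polB M u n)

theorem phi_add (c b : HR F) (M : ℕ) (u v : (Σ _ : ℕ, ℕ ⊕ ℕ) → HK F) (n : ℕ) :
    phi c b M (u + v) n = phi c b M u n + phi c b M v n := by
  unfold phi
  rw [polA_add, polB_add, pv_add]

theorem phi_smul (c b : HR F) (M : ℕ) (κ : HK F) (u : (Σ _ : ℕ, ℕ ⊕ ℕ) → HK F) (n : ℕ) :
    phi c b M (κ • u) n = incl κ * phi c b M u n := by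
  unfold phi pv
  rw [polA_smul, polB_smul, Polynomial.eval₂_mul incl (p := Polynomial.C κ),
    Polynomial.eval₂_mul incl (p := Polynomial.C κ), Polynomial.eval₂_C]
  ring

theorem Fs_add {R : Type*} [CommRing R] (D : ℕ) (φ ψ : ℕ → R) (g : R) (k : ℕ) :
    Fs D (fun n => φ n + ψ n) g k = Fs D φ g k + Fs D ψ g k := by
  unfold Fs
  rw [← Finset.sum_add_distrib]
  exact Finset.sum_congr rfl fun n _ => by ring

theorem Fs_smul {R : Type*} [CommRing R] (D : ℕ) (κ : R) (φ : ℕ → R) (g : R) (k : ℕ) :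
    Fs D (fun n => κ * φ n) g k = κ * Fs D φ g k := by
  unfold Fs
  rw [Finset.mul_sum]
  exact Finset.sum_congr rfl fun n _ => by ring

theorem prt_add (x y : HR F) (m : ℤ × ℤ) : prt (x + y) m = prt x m + prt y m := by
  ext a
  rw [HahnSeries.coeff_add, prt_coeff, prt_coeff, prt_coeff]
  rfl

/-- extension by zero -/
noncomputable def ext0 {K S : Type} [Field K] [DecidableEq S] (I : Finset S) : (↥I → K) →ₗ[K] (S → K) where
  toFun a s := if h : s ∈ I then a ⟨s, h⟩ else 0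
  map_add' a b := by
    funext s
    simp only [Pi.add_apply]
    split_ifs
    · rfl
    · rw [add_zero]
  map_smul' κ a := by
    funext s
    simp only [Pi.smul_apply, smul_eq_mul, RingHom.id_apply]
    split_ifs
    · rfl
    · rw [mul_zero]

theorem ext0_mem {K S : Type} [Field K] [DecidableEq S] {I : Finset S} (a : ↥I → K) {s : S}
    (h : s ∈ I) : ext0 I a s = a ⟨s, h⟩ := dif_pos h

theorem ext0_not {K S : Type} [Field K] [DecidableEq S] {I : Finset S} (a : ↥I → K) {s : S}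
    (h : s ∉ I) : ext0 I a s = 0 := dif_neg h

/-- a nonzero series has a nonzero coefficient of the least order -/
theorem exists_lead {x : HR F} (hx : x ≠ 0) : ∃ α : ℝ, Low x α ∧ ∃ i j : ℤ, cf x α i j ≠ 0 := by
  refine ⟨x.order, fun a ha => HahnSeries.coeff_eq_zero_of_lt_order ha, ?_⟩
  have hc0 : x.coeff x.order ≠ 0 := fun h => hx (HahnSeries.coeff_order_eq_zero.1 h)
  by_contra hcon
  push Not at hcon
  apply hc0
  ext ⟨i, j⟩
  exact hcon i j

/-- membership in the window -/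
theorem mem_window {x : ℝ} {n i : ℤ} (h1 : -(i : ℝ) ≤ x) (h2 : (i : ℝ) ≤ n - x)
    (hx : ∀ z : ℤ, x ≠ z) : i ∈ Finset.Ioc ⌊-x⌋ (⌊-x⌋ + n) := by
  rw [Finset.mem_Ioc]
  constructor
  · have h3 := Int.floor_le (-x)
    have h4 : (⌊-x⌋ : ℝ) < i := by
      rcases lt_or_eq_of_le (show (⌊-x⌋ : ℝ) ≤ i by linarith) with h | h
      · exact h
      · exfalso
        apply hx (-i)
        push_cast
        linarith
    exact_mod_cast h4
  · have h3 : i - n ≤ ⌊-x⌋ := by
      rw [Int.le_floor]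
      push_cast
      linarith
    omega

end pol

end Pool.Agent.L7h91.TW
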