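import Pool.Agent.L7h91.TWS.Tot

/-!
# The step, rank version
-/

set_option autoImplicit false

namespace Pool.Agent.L7h91.TW

open Finset Pool.Agent.TH603.EL Pool.Agent.TH3.IR Pool.Agent.TH3.IR.Comap

/-- clearing denominators of finitely many elements -/
theorem clearT {A K T : Type} [CommRing A] [IsDomain A] [Field K] [Algebra A K] [IsFractionRing A K]
    [Finite T] (a : T → K) (ha : a ≠ 0) : ∃ (κ : T → A) (d : K), d ≠ 0 ∧
      (∀ t, algebraMap A K (κ t) = d * a t) ∧ ∃ t, κ t ≠ 0 := by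
  obtain ⟨d, hd⟩ := IsLocalization.exist_integer_multiples_of_finite (nonZeroDivisors A) a
  choose κ hκ using hd
  have hd0 : algebraMap A K d ≠ 0 := by
    intro h
    exact nonZeroDivisors.coe_ne_zero d ((IsFractionRing.injective A K) (h.trans (map_zero _).symm))
  have h1 : ∀ t, algebraMap A K (κ t) = algebraMap A K d * a t := by
    intro t
    rw [hκ, Algebra.smul_def]
  refine ⟨κ, algebraMap A K d, hd0, h1, ?_⟩
  obtain ⟨t, ht⟩ := Function.ne_iff.1 ha
  refine ⟨t, fun h => ?_⟩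
  have h2 := h1 t
  rw [h, map_zero] at h2
  rcases mul_eq_zero.1 h2.symm with h3 | h3
  · exact hd0 h3
  · exact ht h3

theorem gam_prj {σ : Type} [Fintype σ] [DecidableEq σ] {q l : σ} (hql : q ≠ l) (m : ℤ × (σ → ℤ))
    (hq : 0 ≤ m.2 q) (hl : 0 ≤ m.2 l) :
    gam q l (prj q l m) (m.2 q).toNat (m.2 l).toNat = m.2 := by
  funext i
  unfold gam
  rw [Pi.add_apply, Pi.add_apply]
  by_cases h1 : i = q
  · subst h1
    rw [prj_q i l hql, Pi.single_eq_same, Pi.single_eq_of_ne hql, Int.toNat_of_nonneg hq]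
    ring
  · by_cases h2 : i = l
    · subst h2
      rw [prj_l q i, Pi.single_eq_same, Pi.single_eq_of_ne hql.symm, Int.toNat_of_nonneg hl]
      ring
    · rw [prj_i q l m h1 h2, Pi.single_eq_of_ne h1, Pi.single_eq_of_ne h2]
      ring

theorem gam_sum {σ : Type} [Fintype σ] [DecidableEq σ] {q l : σ} (hql : q ≠ l) {c : σ → ℤ}
    (hcq : c q = 0) (hcl : c l = 0) (j k : ℕ) (f : σ → ℝ) :
    ∑ x, f x * (gam q l c j k x : ℝ) = f q * j + f l * k +
      ∑ x ∈ (univ.erase q).erase l, f x * (c x : ℝ) := by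
  rw [sum_split q l hql]
  unfold gam
  simp only [Pi.add_apply, Pi.single_eq_same, Pi.single_eq_of_ne hql,
    Pi.single_eq_of_ne hql.symm, hcq, hcl]
  push_cast
  rw [zero_add, zero_add, add_zero, zero_add]
  congr 1
  refine Finset.sum_congr rfl fun x hx => ?_
  rw [Finset.mem_erase, Finset.mem_erase] at hx
  rw [Pi.single_eq_of_ne hx.2.1, Pi.single_eq_of_ne hx.1]
  push_cast
  ring

theorem gam_nonneg {σ : Type} [DecidableEq σ] {q l : σ} {c : σ → ℤ}
    (hc : ∀ i, 0 ≤ c i) (j k : ℕ) (x : σ) : 0 ≤ gam q l c j k x := by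
  unfold gam
  simp only [Pi.add_apply]
  have h1 := hc x
  have h2 : (0 : ℤ) ≤ (Pi.single q (j : ℤ) : σ → ℤ) x := by
    by_cases hx : x = q
    · subst hx
      rw [Pi.single_eq_same]
      exact Int.natCast_nonneg j
    · rw [Pi.single_eq_of_ne hx]
  have h3 : (0 : ℤ) ≤ (Pi.single l (k : ℤ) : σ → ℤ) x := by
    by_cases hx : x = l
    · subst hx
      rw [Pi.single_eq_same]
      exact Int.natCast_nonneg k
    · rw [Pi.single_eq_of_ne hx]
  omega

/-- the bounds for the exponents -/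
theorem af_rf {a0 r0 μ ν : ℝ} (ha0 : 0 ≤ a0) (hμ : 0 ≤ μ) (hν : 1 / 2 ≤ ν) :
    ∃ (af : ℕ → ℕ) (rf : ℕ → ℤ), (∀ n m : ℕ, n ≤ m → af n ≤ af m) ∧
      (∀ n m : ℕ, n ≤ m → rf m + ((m : ℤ) - n) ≤ rf n) ∧
      (∀ n x : ℕ, af n ≤ x → a0 + μ * n ≤ x) ∧
      (∀ (n : ℕ) (x : ℤ), 2 * x ≤ rf n → (x : ℝ) ≤ r0 - ν * n + 3 / 2) ∧
      (∀ (n : ℕ) (x : ℤ), 2 * x + 3 ≤ rf n → (x : ℝ) ≤ r0 - ν * n) ∧
      ∀ n : ℕ, 2 * (r0 - a0 - (μ + ν) * n) < ((rf n - 2 * af n : ℤ) : ℝ) := by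
  refine ⟨fun n => ⌈a0 + μ * n⌉₊, fun n => ⌊2 * (r0 + 3 / 2 - ν * n)⌋, ?_, ?_, ?_, ?_, ?_, ?_⟩
  · intro n m h
    apply Nat.ceil_mono
    have h' : (n : ℝ) ≤ m := by exact_mod_cast h
    nlinarith
  · intro n m h
    have h' : (n : ℝ) ≤ m := by exact_mod_cast h
    rw [Int.le_floor]
    push_cast
    have := Int.floor_le (2 * (r0 + 3 / 2 - ν * m))
    nlinarith
  · intro n x h
    exact (Nat.le_ceil _).trans (by exact_mod_cast h)
  · intro n x h
    have h1 : ((2 * x : ℤ) : ℝ) ≤ 2 * (r0 + 3 / 2 - ν * n) := Int.le_floor.1 h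
    push_cast at h1
    linarith
  · intro n x h
    have h1 : ((2 * x + 3 : ℤ) : ℝ) ≤ 2 * (r0 + 3 / 2 - ν * n) := Int.le_floor.1 h
    push_cast at h1
    linarith
  · intro n
    have h1 := Int.sub_one_lt_floor (2 * (r0 + 3 / 2 - ν * n))
    have h2 := Nat.ceil_lt_add_one (a := a0 + μ * n) (by positivity)
    push_cast
    linarith

/-- the exponents of one polynomial -/
theorem mem_fP {F : Type} [Field F] {σ : Type} [Fintype σ] [DecidableEq σ] {q l : σ}
    (hql : q ≠ l) {L R : ℝ} {μ ν : σ → ℝ}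
    {cc : σ → ℤ} (hcq : cc q = 0) (hcl : cc l = 0) (hc0 : ∀ i, 0 ≤ cc i)
    {D : ℕ} {P : ℕ → Polynomial (Polynomial (HK F))}
    (hP : ∀ n : ℕ, SN.Tri (L + ∑ i ∈ (univ.erase q).erase l, μ i * (cc i : ℝ) + μ l * n)
      (R - ∑ i ∈ (univ.erase q).erase l, ν i * (cc i : ℝ) - ν l * n) (μ q) (ν q) (P n))
    {m : ℤ × (σ → ℤ)} (hm : m ∈ (fP q l cc D P).support) :
    m ∈ RegS L R μ ν ∧ 0 ≤ m.1 ∧ ∀ i, 0 ≤ m.2 i := by
  obtain ⟨n, hn, b, x, h1, rfl⟩ := fP_supp q l hm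
  obtain ⟨h2, h3⟩ := hP n b x h1
  have h4 := gam_nonneg (q := q) (l := l) hc0 b n
  refine ⟨⟨h4, ?_, ?_⟩, Int.natCast_nonneg x, h4⟩
  · show L + ∑ i, μ i * (gam q l cc b n i : ℝ) ≤ ((x : ℤ) : ℝ)
    rw [gam_sum hql hcq hcl]
    push_cast
    linarith
  · show ((x : ℤ) : ℝ) ≤ R - ∑ i, ν i * (gam q l cc b n i : ℝ)
    rw [gam_sum hql hcq hcl]
    push_cast
    linarith

theorem SurS_core {ι σ : Type} [Fintype ι] [Fintype σ] [DecidableEq σ] {w : ι → ℕ} {L R : ℝ}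
    {μ ν : σ → ℝ} (hL : 0 ≤ L) (hμ : ∀ i, 0 ≤ μ i) (q l : σ) (hql : q ≠ l)
    (hq : 3 / 2 ≤ ν q) (hl : 1 / 2 ≤ ν l) {τ ρ : ℝ} (h0 : 0 < τ) (hτρ : τ < ρ) (hρ : ρ < 1)
    (hgen : ∀ x y z : ℤ, (x ≠ 0 ∨ y ≠ 0) → (x : ℝ) * τ + y * ρ ≠ z)
    (D' : Set (ℤ × (σ → ℤ)))
    (hreg : ∀ m ∈ D', (∀ i, 0 ≤ m.2 i) ∧ ∃ (D : ℕ) (W : ℝ), (m.2 l : ℝ) ≤ D ∧
      W = R - L - ∑ i ∈ (univ.erase q).erase l, (μ i + ν i) * (m.2 i : ℝ) -
        2 * (μ q + ν q) * m.2 q - (μ q + ν q) ∧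
      (m.2 l : ℝ) ≤ 2 * (W - (μ l + ν l) * D) ∧
      (m.1 : ℝ) ≤ 2 * (1 - τ) * (W - (μ l + ν l) * m.2 l) + (ρ - τ) * ((D : ℝ) - 2 * m.2 l) ∧
      -(m.1 : ℝ) ≤ 2 * τ * (W - (μ l + ν l) * m.2 l) + (1 - ρ + τ) * ((D : ℝ) - 2 * m.2 l))
    (h : SurS w D') : SurS w (RegS L R μ ν) := by
  classical
  have hτ1 : τ < 1 := by linarith
  obtain ⟨T, hTD, hTc, F, _, _, x, y, hx, hy, hfz⟩ := h
  obtain ⟨c, b, hT⟩ := exists_T (F := F) h0 hτ1
  obtain ⟨cp, bp, hp⟩ := exists_pt (F := F) (ρ := ρ) (by linarith) hρ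
  obtain ⟨g, hg, hgy, hgl⟩ := exists_g h0 hτρ hρ hT hp
  have hg0 : g ≠ 0 := hgl.ne one_ne_zero
  -- the lifts
  have hlift : ∀ m : ↥T, ∃ (D : ℕ) (A B : ℕ → Polynomial (HK F)), (m.1.2 l).toNat ≤ D ∧
      (∀ n, ∀ x ∈ (A n).support, n ≤ D) ∧ (∀ n, ∀ x ∈ (B n).support, n ≤ D) ∧
      (∀ n : ℕ, SN.Tri (L + ∑ i ∈ (univ.erase q).erase l, μ i * (prj q l m.1 i : ℝ) + μ l * n)
        (R - ∑ i ∈ (univ.erase q).erase l, ν i * (prj q l m.1 i : ℝ) - ν l * n) (μ q) (ν q)
        ((Polynomial.C (A n) + Polynomial.C (B n) * Polynomial.X) *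
          nod F ^ (m.1.2 q).toNat)) ∧
      (∀ j < (m.1.2 l).toNat, Fs D (fun n => pv c b (A n) (B n)) g j = 0) ∧
      Ld (Fs D (fun n => pv c b (A n) (B n)) g (m.1.2 l).toNat) 0 m.1.1 1 := by
    intro m
    obtain ⟨hm0, D, W, hD1, hW, hD2, hi1, hi2⟩ := hreg m.1 (hTD m.2)
    obtain ⟨k, hk⟩ : ∃ k, k = (m.1.2 l).toNat := ⟨_, rfl⟩
    obtain ⟨j, hj⟩ : ∃ j, j = (m.1.2 q).toNat := ⟨_, rfl⟩
    have hkr : (m.1.2 l : ℝ) = k := by
      have : m.1.2 l = (k : ℤ) := by rw [hk, Int.toNat_of_nonneg (hm0 l)]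
      rw [this]
      push_cast
      rfl
    have hjr : (m.1.2 q : ℝ) = j := by
      have : m.1.2 q = (j : ℤ) := by rw [hj, Int.toNat_of_nonneg (hm0 q)]
      rw [this]
      push_cast
      rfl
    rw [hkr] at hD1 hD2 hi1 hi2
    rw [hjr] at hW
    have hpr : ∀ f : σ → ℝ, ∑ i ∈ (univ.erase q).erase l, f i * (prj q l m.1 i : ℝ) =
        ∑ i ∈ (univ.erase q).erase l, f i * (m.1.2 i : ℝ) := by
      intro f
      refine Finset.sum_congr rfl fun i hi => ?_
      rw [Finset.mem_erase, Finset.mem_erase] at hi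
      rw [prj_i q l m.1 hi.2.1 hi.1]
    rw [← hk, ← hj, hpr, hpr]
    obtain ⟨a0, ha0⟩ : ∃ a0, a0 = L + ∑ i ∈ (univ.erase q).erase l, μ i * (m.1.2 i : ℝ) +
      2 * μ q * j + μ q := ⟨_, rfl⟩
    obtain ⟨r0, hr0⟩ : ∃ r0, r0 = R - ∑ i ∈ (univ.erase q).erase l, ν i * (m.1.2 i : ℝ) -
      2 * ν q * j - ν q := ⟨_, rfl⟩
    have hWa : W = r0 - a0 := by
      have e : ∑ i ∈ (univ.erase q).erase l, (μ i + ν i) * (m.1.2 i : ℝ) =
          ∑ i ∈ (univ.erase q).erase l, μ i * (m.1.2 i : ℝ) +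
          ∑ i ∈ (univ.erase q).erase l, ν i * (m.1.2 i : ℝ) := by
        rw [← Finset.sum_add_distrib]
        exact Finset.sum_congr rfl fun i _ => by ring
      rw [hW, e, hr0, ha0]
      ring
    have ha00 : 0 ≤ a0 := by
      have h1 : (0 : ℝ) ≤ ∑ i ∈ (univ.erase q).erase l, μ i * (m.1.2 i : ℝ) :=
        Finset.sum_nonneg fun i _ => mul_nonneg (hμ i) (by exact_mod_cast hm0 i)
      have h2 := hμ q
      rw [ha0]
      positivity
    obtain ⟨af, rf, haf, hrf, b1, b2, b3, b4⟩ := af_rf (r0 := r0) ha00 (hμ l) hl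
    have hkD : k ≤ D := by exact_mod_cast hD1
    have hWk := b4 k
    have hWD := b4 D
    rw [← hWa] at hWk hWD
    have hkD2 : (k : ℤ) + 1 ≤ rf D - 2 * af D := by
      have : ((k : ℤ) : ℝ) < ((rf D - 2 * af D : ℤ) : ℝ) := by
        push_cast at hWD ⊢
        linarith
      have : (k : ℤ) < rf D - 2 * af D := by exact_mod_cast this
      omega
    obtain ⟨A, B, hA, hB, hz, hld1, hld2⟩ := elift h0 hτρ hρ hgen hT hp hg0 hg haf hrf hkD hkD2
      m.1.1 (by nlinarith) (by nlinarith)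
    refine ⟨D, A, B, hkD, fun n x hx => (hA n x hx).1, fun n x hx => (hB n x hx).1, ?_, hz, hld1,
      hld2⟩
    intro n
    apply tri_layer (hμ q) hq
    · intro x hx
      obtain ⟨_, h2, h3⟩ := hA n x hx
      have h4 := b1 n x h2
      have h5 := b2 n x h3
      push_cast at h5
      constructor <;> linarith
    · intro x hx
      obtain ⟨_, h2, h3⟩ := hB n x hx
      have h4 := b1 n x h2
      have h5 := b3 n x h3
      push_cast at h5
      constructor <;> linarith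
  choose D AA BB hkD hAD hBD htri hz hld using hlift
  obtain ⟨N, hN⟩ : ∃ N : ℕ, ∀ m, D m ≤ N :=
    ⟨univ.sup D, fun m => Finset.le_sup (f := D) (mem_univ m)⟩
  obtain ⟨S, hS⟩ : ∃ S : ℕ, S = N + 1 := ⟨_, rfl⟩
  obtain ⟨A, hA⟩ : ∃ A, A = sdE σ q l S τ c b g := ⟨_, rfl⟩
  have hTA : IsT A.τ A.c A.b := by rw [hA]; exact hT
  have hinj : Function.Injective (algebraMap (Ae F) (FractionRing (Ae F))) :=
    IsFractionRing.injective _ _
  -- the coordinates do not vanish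
  have hnz : ∀ (i : ι) (p : Re F σ), E0 (x i) (y i) (hx i) (hy i) (p.coeff 0) ≠ 0 →
      Ee (x i) (y i) (hx i) (hy i) p ≠ 0 := by
    intro i p hp h
    apply hp
    have h1 := congrArg (fun p : Ae F => p.coeff 0) h
    simp only [Polynomial.coeff_zero] at h1
    rw [← h1]
    unfold Ee
    rw [Polynomial.coe_mapRingHom, Polynomial.coeff_map]
  have hee : A.ee.coeff 0 = 0 := by
    rw [hA]
    show (Polynomial.X ^ S * _ : Re F σ).coeff 0 = 0
    rw [Polynomial.coeff_X_pow_mul', if_neg (by omega)]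
  have hxe : A.xe.coeff 0 = io F σ (c ^ 2) := by
    unfold SD.xe
    rw [Polynomial.coeff_add, Polynomial.mul_coeff_zero, hee, zero_mul, add_zero, hA, map_pow]
    show (Polynomial.C (io F σ c) ^ 2 : Re F σ).coeff 0 = _
    rw [← Polynomial.C_pow, Polynomial.coeff_C_zero]
  have hye : A.ye.coeff 0 = io F σ (1 + b) := by
    unfold SD.ye
    rw [Polynomial.coeff_add, Polynomial.mul_coeff_zero, hee, zero_mul, add_zero, hA,
      Polynomial.coeff_add, Polynomial.coeff_one_zero, map_add, map_one]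
    show 1 + (Polynomial.C (io F σ b) : Re F σ).coeff 0 = _
    rw [Polynomial.coeff_C_zero]
  have hle : A.le.coeff 0 = io F σ g := by
    unfold SD.le
    rw [Polynomial.mul_coeff_zero, Polynomial.coeff_add, Polynomial.coeff_one_zero,
      Polynomial.mul_coeff_zero, hA]
    show (Polynomial.C (io F σ g) : Re F σ).coeff 0 * (1 + (Polynomial.X : Re F σ).coeff 0 * _) = _
    rw [Polynomial.coeff_C_zero, Polynomial.coeff_X_zero, zero_mul, add_zero, mul_one]
  have hldc : Ld (c ^ 2) 0 0 (1 : F) := IsN.ld ((nc h0 hτ1 hT).pow 2)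
  have hldb : Ld (1 + b) 0 0 (1 : F) := by
    apply Ld.near (m := min τ (1 - τ)) (lt_min h0 (by linarith))
    have e : b = hf F * (xi F τ + et F τ) := by
      rw [← hT.b_eq, ← mul_assoc, mul_comm (hf F) 2, two_hf, one_mul]
    rw [add_sub_cancel_left, e]
    have h1 : Low (xi F τ) (min τ (1 - τ)) := (low_tz τ 1 0).mono (min_le_left _ _)
    have h2 : Low (et F τ) (min τ (1 - τ)) := (low_tz (1 - τ) (-1) 0).mono (min_le_right _ _)
    have := low_hf.mul (h1.add h2)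
    rwa [zero_add] at this
  have hX : ∀ i, Ee (x i) (y i) (hx i) (hy i) A.xe ≠ 0 := by
    intro i
    apply hnz
    rw [hxe]
    exact e0_ne _ _ hldc one_ne_zero
  have hU : ∀ i k, Ee (x i) (y i) (hx i) (hy i) (UU q l A (pasE F σ) k) ≠ 0 := by
    intro i k
    apply hnz
    unfold UU
    by_cases h1 : k = q
    · rw [if_pos h1, hye]
      exact e0_ne _ _ hldb one_ne_zero
    · rw [if_neg h1]
      by_cases h2 : k = l
      · rw [if_pos h2, hle]
        exact e0_ne _ _ hgl one_ne_zero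
      · rw [if_neg h2]
        unfold pasE
        rw [Polynomial.coeff_C_zero]
        intro h3
        have h4 := congrArg (fun v : HK F => v.coeff 0) h3
        simp only [HahnSeries.coeff_zero] at h4
        rw [E0_coeff] at h4
        unfold Mo at h4
        rw [HahnSeries.coeff_single_same, evS_single, one_mul] at h4
        unfold ch at h4
        rw [zpow_zero, one_mul] at h4
        exact (Finset.prod_ne_zero_iff.2 fun j _ => zpow_ne_zero _ (hy i j)) h4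
  have hφA : A.φ = φe F σ := by
    apply Polynomial.ringHom_ext
    · intro κ
      unfold SD.φ φe
      rw [Polynomial.coe_eval₂RingHom, Polynomial.eval₂_C, Polynomial.coe_mapRingHom,
        Polynomial.map_C, hA]
      show Polynomial.C (io F σ (incl κ)) = _
      rw [io_incl]
    · unfold SD.φ φe
      rw [Polynomial.coe_eval₂RingHom, Polynomial.eval₂_X, Polynomial.coe_mapRingHom,
        Polynomial.map_X, hA]
      rfl
  have hφE : ∀ i p, Ee (x i) (y i) (hx i) (hy i) (A.φ p) = p := by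
    intro i p
    rw [hφA, Ee_φe]
  -- the polynomials
  obtain ⟨f, hf⟩ : ∃ f : ↥T → ((ℤ × (σ → ℤ)) →₀ Ae F), ∀ m, f m = fP q l (prj q l m.1) (D m)
      (fun n => (Polynomial.C (AA m n) + Polynomial.C (BB m n) * Polynomial.X) *
        nod F ^ (m.1.2 q).toNat) := ⟨fun m => _, fun m => rfl⟩
  have hpr0 : ∀ m : ↥T, prj q l m.1 q = 0 ∧ prj q l m.1 l = 0 ∧ ∀ i, 0 ≤ prj q l m.1 i := by
    intro m
    refine ⟨prj_q q l hql m.1, prj_l q l m.1, fun i => ?_⟩
    by_cases h1 : i = q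
    · rw [h1, prj_q q l hql]
    · by_cases h2 : i = l
      · rw [h2, prj_l]
      · rw [prj_i q l m.1 h1 h2]
        exact (hreg m.1 (hTD m.2)).1 i
  have hfs : ∀ m, ∀ n ∈ (f m).support, n ∈ RegS L R μ ν ∧ 0 ≤ n.1 ∧ ∀ i, 0 ≤ n.2 i := by
    intro m n hn
    rw [hf] at hn
    exact mem_fP hql (hpr0 m).1 (hpr0 m).2.1 (hpr0 m).2.2 (htri m) hn
  obtain ⟨Tt, hTt⟩ : ∃ Tt : ↥T → Re F σ, ∀ m, Tt m = evR A.φ A.xe (UU q l A (pasE F σ)) (f m) :=
    ⟨fun m => _, fun m => rfl⟩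
  have htot : ∀ m : ↥T, (∀ n < (N + 1) * (m.1.2 q).toNat + (m.1.2 l).toNat,
      (Tt m).coeff n = 0) ∧
      Low ((Tt m).coeff ((N + 1) * (m.1.2 q).toNat + (m.1.2 l).toNat))
        (((m.1.2 q).toNat : ℝ) * 1 + 0) ∧
      ((Tt m).coeff ((N + 1) * (m.1.2 q).toNat + (m.1.2 l).toNat)).coeff
        (((m.1.2 q).toNat : ℝ) * 1 + 0) =
        AddMonoidAlgebra.single m.1 ((2 : F) ^ (m.1.2 q).toNat * 1) := by
    intro m
    obtain ⟨t1, t2⟩ := tot_fP hql hT (hN m) (hpr0 m).1 (hpr0 m).2.1 (hpr0 m).2.2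
      (m.1.2 q).toNat (m.1.2 l).toNat ((hkD m).trans (hN m)) (hAD m) (hBD m) (hz m)
      (Tot := Tt m) (by rw [hTt, hf, hA, hS])
    refine ⟨t1, ?_⟩
    obtain ⟨t3, t4⟩ := lead_io (((ld_v0 h0 hτ1 hT).pow (m.1.2 q).toNat).mul (hld m))
      (gam q l (prj q l m.1) (m.1.2 q).toNat (m.1.2 l).toNat)
    rw [t2]
    refine ⟨t3, t4.trans ?_⟩
    rw [gam_prj hql m.1 ((hreg m.1 (hTD m.2)).1 q) ((hreg m.1 (hTD m.2)).1 l)]
    congr 1
    rw [mul_zero, zero_add]
  -- the rank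
  obtain ⟨T', h1, h2, h3⟩ := Pool.Agent.TH3.IR.exists_T (w := w) (S := RegS L R μ ν)
    (x := fun i => algebraMap (Ae F) (FractionRing (Ae F))
      (Ee (x i) (y i) (hx i) (hy i) A.xe))
    (y := fun i k => algebraMap (Ae F) (FractionRing (Ae F))
      (Ee (x i) (y i) (hx i) (hy i) (UU q l A (pasE F σ) k)))
    (κ := ↥T) (by rw [Fintype.card_coe]; exact hTc)
    (fun m => (f m).mapRange (algebraMap (Ae F) (FractionRing (Ae F))) (map_zero _))
    (fun m n hn => (hfs m n (Finsupp.support_mapRange hn)).1) (by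
      intro a hLM
      by_contra hne
      obtain ⟨κ, d, hd0, hκ, hκ0⟩ := clearT (A := Ae F) a hne
      obtain ⟨f', hf'⟩ : ∃ f', f' = ∑ m, κ m • f m := ⟨_, rfl⟩
      have e1 : f'.mapRange (algebraMap (Ae F) (FractionRing (Ae F))) (map_zero _) =
          d • ∑ m, a m • (f m).mapRange (algebraMap (Ae F) (FractionRing (Ae F)))
            (map_zero _) := by
        ext n
        rw [Finsupp.mapRange_apply, hf', Finsupp.finsetSum_apply, map_sum, Finsupp.smul_apply,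
          Finsupp.finsetSum_apply, Finset.smul_sum]
        refine Finset.sum_congr rfl fun m _ => ?_
        rw [Finsupp.smul_apply, Finsupp.smul_apply, Finsupp.mapRange_apply, smul_eq_mul,
          smul_eq_mul, smul_eq_mul, map_mul, hκ, mul_assoc]
      have hf'L : ∀ i, LMS (f'.mapRange (algebraMap (Ae F) (FractionRing (Ae F))) (map_zero _))
          (algebraMap (Ae F) (FractionRing (Ae F)) (Ee (x i) (y i) (hx i) (hy i) A.xe))
          (fun k => algebraMap (Ae F) (FractionRing (Ae F))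
            (Ee (x i) (y i) (hx i) (hy i) (UU q l A (pasE F σ) k))) (w i) := by
        intro i α γ hw
        rw [e1, SStep.mo_smul, hLM i α γ hw, mul_zero]
      have hpos : ∀ n ∈ f'.support, 0 ≤ n.1 ∧ ∀ i, 0 ≤ n.2 i := by
        intro n hn
        rw [hf', Finsupp.mem_support_iff, Finsupp.finsetSum_apply] at hn
        obtain ⟨m, _, h2⟩ := Finset.exists_ne_zero_of_sum_ne_zero hn
        rw [Finsupp.smul_apply, smul_eq_mul] at h2
        exact (hfs m n (Finsupp.mem_support_iff.2 (right_ne_zero_of_mul h2))).2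
      obtain ⟨Tot, hTot⟩ : ∃ Tot, Tot = ∑ m, φe F σ (κ m) * Tt m := ⟨_, rfl⟩
      have hTot' : Tot = evR A.φ A.xe (UU q l A (pasE F σ)) f' := by
        rw [hTot, hf', evR_sum]
        refine Finset.sum_congr rfl fun m _ => ?_
        rw [evR_smul, hTt, hφA]
      have hVE : ∀ i, VE (x i) (y i) (hx i) (hy i) (w i) Tot := by
        intro i
        apply VE_of_ker
        rw [hTot']
        exact evR_mem (algebraMap (Ae F) (FractionRing (Ae F))) hinj A.φ
          (Ee (x i) (y i) (hx i) (hy i)) (hφE i) hpos (hX i) (hU i) (hf'L i)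
      obtain ⟨A0, α0, v, ⟨t0, ht0⟩, hv⟩ := assemble
        (X := Tt) (A := fun m : ↥T => (N + 1) * (m.1.2 q).toNat + (m.1.2 l).toNat)
        (α := fun m : ↥T => ((m.1.2 q).toNat : ℝ) * 1 + 0) (m := fun m : ↥T => m.1)
        (c := fun m : ↥T => (2 : F) ^ (m.1.2 q).toNat * 1)
        (fun m => mul_ne_zero (pow_ne_zero _ two_ne_zero) one_ne_zero)
        (fun m => (htot m).1) (fun m => (htot m).2.1) (fun m => (htot m).2.2) κ hκ0
      rw [← hTot] at hv
      apply ht0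
      have hzero : ((Tot.coeff A0).coeff α0).coeff = 0 := by
        apply hfz
        · intro n hn
          rw [Finset.mem_coe, Finsupp.mem_support_iff, hv, coeff_fsum] at hn
          obtain ⟨m, _, h2⟩ := Finset.exists_ne_zero_of_sum_ne_zero hn
          rw [AddMonoidAlgebra.coeff_single, Finsupp.single_apply] at h2
          by_cases hmn : m.1 = n
          · rw [← hmn]
            exact m.2
          · rw [if_neg hmn] at h2
            exact absurd rfl h2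
        · intro i
          exact LMS_of_ker_pow (x i) (y i) (hx i) (hy i) (hVE i A0 α0)
      have h4 : ((Tot.coeff A0).coeff α0).coeff t0.1 = v t0 := by
        rw [hv, coeff_fsum, Finset.sum_eq_single t0]
        · rw [AddMonoidAlgebra.coeff_single, Finsupp.single_eq_same]
        · intro m _ hmm
          rw [AddMonoidAlgebra.coeff_single, Finsupp.single_apply, if_neg]
          intro h0
          exact hmm (Subtype.ext h0)
        · intro h3
          exact absurd (Finset.mem_univ _) h3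
      rw [← h4, hzero]
      rfl)
  exact ⟨T', h1, h2, FractionRing (Ae F), inferInstance, inferInstance, _, _,
    fun i h => hX i (hinj (h.trans (map_zero _).symm)),
    fun i k h => hU i k (hinj (h.trans (map_zero _).symm)), h3⟩

end Pool.Agent.L7h91.TW
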