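import Pool.Agent.L7h91.TW.Elev2

/-!
# The range of the leading exponents, general coefficients
-/

set_option autoImplicit false

namespace Pool.Agent.L7h91.TW

open Finset Pool.Agent.TH603.EL Pool.Agent.TH3.IR Pool.Agent.TH3.IR.Pair

variable {F : Type} [Field F]

variable [CharZero F]

/-- the E-level lemma, general form -/
theorem elevelG {τ ρ : ℝ} (h0 : 0 < τ) (hτρ : τ < ρ) (hρ : ρ < 1) {c b : HR F} {cp bp : HK F}
    (hT : IsT τ c b) (hp : IsPt ρ cp bp) {Lf Rf : ℕ → ℝ} (hL : ∀ n m : ℕ, n ≤ m → Lf n ≤ Lf m)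
    (hR : ∀ n m : ℕ, n ≤ m → Rf m + ((m : ℝ) - n) / 2 ≤ Rf n) (D : ℕ)
    (φ : ℕ → HR F) (hφ : ∀ n : ℕ, φ n ∈ Cls c b (Lf n) (Rf n)) {g : HR F}
    (hg : g * (dat hT hp).V = (dat hT hp).U) (k : ℕ) (hk : k ≤ D)
    (hz : ∀ j < k, Fs D φ g j = 0) :
    (∀ (α : ℝ) (i j : ℤ), Low (φ D) α → cf (φ D) α i j ≠ 0 → j = 0 ∧
      (i : ℝ) - k ≤ (2 * (Rf D - Lf D) - k) * (1 - τ) - k * ρ ∧
      -((i : ℝ) - k) ≤ (2 * (Rf D - Lf D) - k) * τ + k * ρ) ∧
    ∀ (α : ℝ) (i j : ℤ), Low (Fs D φ g k) α → cf (Fs D φ g k) α i j ≠ 0 → j = 0 ∧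
      (i : ℝ) ≤ 2 * (1 - τ) * (Rf k - Lf k) + (ρ - τ) * ((D : ℝ) - 2 * k) ∧
      -(i : ℝ) ≤ 2 * τ * (Rf k - Lf k) + (1 - ρ + τ) * ((D : ℝ) - 2 * k) := by
  classical
  set S := dat hT hp with hS
  have lV := ldV h0 hτρ hρ hT hp
  have lU := ldU h0 hτρ hρ hT hp
  have lΔ := ldΔ h0 hτρ hρ hT hp
  rw [← hS] at lV lU lΔ
  have nw' := nw h0 hτρ hρ hT hp
  have nq' := nq h0 hτρ hρ hT hp
  rw [← hS] at nw' nq'
  have bc := bd_c hT
  have bb := bd_b hT
  have hρ0 : 0 < ρ := by linarith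
  have hτ1 : 0 < 1 - τ := by linarith
  have h2 : (2 : F) ≠ 0 := two_ne_zero
  have h2i : (2⁻¹ : F) ≠ 0 := inv_ne_zero h2
  obtain ⟨ψ, hψT, χ, hχT, a1, a2, a3⟩ := alg_main S (BdR F τ) D φ (fun n => Cls.bd bc bb (hφ n))
    (show Bd τ _ from Bd.tz) (show Bd τ _ from Bd.tz) (show Bd τ _ from nw'.u.bd)
    (show Bd τ _ from nq'.u.bd) two_ne (lV.ne one_ne_zero) (lU.ne one_ne_zero) (lΔ.ne h2) hg k hk hz
  have hkD : (k : ℝ) ≤ D := by exact_mod_cast hk
  have hDk : ((D - k : ℕ) : ℝ) = D - k := by rw [Nat.cast_sub hk]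
  have hDk0 : (0 : ℝ) ≤ D - k := by linarith
  -- normalization
  have norm : ∀ (n : ℕ) (A B : Polynomial (HK F)) (L' R' : ℝ),
      (∀ n ∈ A.support, L' ≤ n ∧ (n : ℝ) ≤ R') →
      (∀ n ∈ B.support, L' ≤ n ∧ (n : ℝ) ≤ R' - 3 / 2) → pv c b A B ≠ 0 →
      ∃ (β : ℝ) (e1 e2 : ℕ), ((e1 : ℝ) + e2) ≤ 2 * (R' - L') ∧
      Wt (-τ) β (pv c b A B) ∧ Wt (1 - τ) β (pv c b A B) ∧
      cf (pv c b A B) (β + e1 * τ) e1 0 ≠ 0 ∧
      cf (pv c b A B) (β + e2 * (1 - τ)) (-e2) 0 ≠ 0 := by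
    intro _ A B L' R' hA hB hne
    have hne' : A ≠ 0 ∨ B ≠ 0 := by
      by_contra hcon
      push Not at hcon
      apply hne
      rw [hcon.1, hcon.2]
      unfold pv
      simp
    obtain ⟨β, e1, e2, he, r1, r2, r3, r4⟩ := pair_norm h0 (by linarith) hT hne' hA
      (fun n hn => by
        have := hB n hn
        exact ⟨by linarith, this.2⟩)
    push_cast at he
    exact ⟨β, e1, e2, he, r1, r2, r3, r4⟩
  have htwo : (2 : HR F) ^ D * hf F ^ D = 1 := by rw [← mul_pow, two_hf, one_pow]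
  have htz : ∀ m : ℕ, (tz F ρ 0 0) ^ m * tz F (-(m * ρ)) 0 0 = 1 := by
    intro m
    have e1 := tz_pow0 (F := F) ρ 0 m
    rw [e1, CR.tz_mul', ← tz_one]
    congr 1 <;> simp
  have bhf : Bd τ (hf F ^ D) := Bd.pow (Bd.of_low (low_single 0 (2⁻¹ : F))) D
  constructor
  · -- the top coefficient
    intro α i j hα hij
    have hD : φ D ≠ 0 := by
      intro h
      rw [h] at hij
      exact hij (by simp [cf])
    obtain ⟨A, B, hA, hB, hv⟩ := hφ D
    obtain ⟨β, e1, e2, he, r1, r2, r3, r4⟩ := norm 0 A B _ _ hA hB (by rw [← hv]; exact hD)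
    rw [← hv] at r1 r2 r3 r4
    obtain ⟨ψ', hψ'⟩ : ∃ ψ', ψ' = hf F ^ D * tz F (-(D * ρ)) 0 0 * χ := ⟨_, rfl⟩
    have hb' : Bd τ ψ' := by
      rw [hψ']
      exact (bhf.mul Bd.tz).mul hχT
    have hu : IsU τ (S.q ^ D * S.w ^ (D - k)) := (nq'.u.pow D).mul (nw'.u.pow (D - k))
    have heq : S.q ^ D * S.w ^ (D - k) * φ D = (1 + tz F (1 - ρ - τ) (-1) 0) ^ 0 *
        ((xi F τ - tz F ρ 0 0) ^ k * ψ') := by
      rw [pow_zero, one_mul, hψ']
      have a3' : (2 : HR F) ^ D * ((tz F ρ 0 0) ^ D * (S.q ^ D * S.w ^ (D - k) * φ D)) =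
          (xi F τ - tz F ρ 0 0) ^ k * χ := by
        have : (2 * (S.ξp * S.q)) ^ D = 2 ^ D * ((tz F ρ 0 0) ^ D * S.q ^ D) := by
          rw [mul_pow, mul_pow]
          rfl
        have h9 : S.ξ - S.ξp = xi F τ - tz F ρ 0 0 := rfl
        rw [this, h9] at a3
        rw [← a3]
        ring
      linear_combination (hf F ^ D * tz F (-(D * ρ)) 0 0) * a3' -
        (S.q ^ D * S.w ^ (D - k) * φ D) * (htz D) -
        (tz F ρ 0 0 ^ D * tz F (-(D * ρ)) 0 0 * S.q ^ D * S.w ^ (D - k) * φ D) * htwo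
    have hkey := key_range h0 hτρ hρ (k := k) (m := 0) r1 r2 r3 r4 hu heq hb'
    have lX : Ld (S.q ^ D * S.w ^ (D - k)) 0 0 1 := by
      have h := ((IsN.ld nq').pow D).mul ((IsN.ld nw').pow (D - k))
      simp only [mul_zero, add_zero, one_pow, mul_one] at h
      exact h
    have lY : Ld ((xi F τ - tz F ρ 0 0) ^ k) (k * τ) (k * 1) 1 := by
      have h1 : Ld (xi F τ - tz F ρ 0 0) τ 1 1 := by
        refine ⟨(low_tz τ 1 0).sub ((low_tz ρ 0 0).mono hτρ.le), ?_⟩
        rw [HahnSeries.coeff_sub, (low_tz ρ 0 0) τ hτρ, sub_zero]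
        exact (Ld.tz τ 1).2
      have h := h1.pow k
      rwa [one_pow] at h
    rw [pow_zero, one_mul] at heq
    obtain ⟨l1, l2⟩ := lead_div lX one_ne_zero lY one_ne_zero heq hα hij
    obtain ⟨b0, b1, b2⟩ := hkey _ _ _ l1 l2
    push_cast at b1 b2
    have hE : (e1 : ℝ) + e2 - k ≤ 2 * (Rf D - Lf D) - k := by linarith
    have g1 := mul_le_mul_of_nonneg_right hE hτ1.le
    have g2 := mul_le_mul_of_nonneg_right hE h0.le
    refine ⟨b0, ?_, ?_⟩
    · linarith
    · linarith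
  · intro α i j hα hij
    obtain ⟨l1, l2⟩ := lead_div ((lV.pow (D - k)).mul (lΔ.pow k))
      (mul_ne_zero (pow_ne_zero _ one_ne_zero) (pow_ne_zero _ h2)) (lU.pow k)
      (pow_ne_zero _ one_ne_zero) a2 hα hij
    have lhf : Ld (hf F) 0 0 (2⁻¹ : F) := by
      refine ⟨low_hf, ?_⟩
      unfold hf
      ext ⟨i, j⟩
      have h := cf_incl (HahnSeries.C (2⁻¹ : F)) 0 i j
      unfold cf at h
      rw [h, AddMonoidAlgebra.coeff_single, Finsupp.single_apply]
      by_cases hij : i = 0 ∧ j = 0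
      · obtain ⟨rfl, rfl⟩ := hij
        simp
      · rw [if_neg hij, if_neg]
        intro h2
        rw [Prod.mk.injEq] at h2
        exact hij ⟨h2.1.symm, h2.2.symm⟩
    obtain ⟨ψ', hψ'⟩ : ∃ ψ', ψ' = hf F ^ D * tz F (-(k * ρ)) 0 0 * ψ := ⟨_, rfl⟩
    obtain ⟨m1, m2⟩ := lead_div ((lhf.pow D).mul (Ld.tz (-(k * ρ)) 0))
      (mul_ne_zero (pow_ne_zero _ h2i) one_ne_zero) Ld.one one_ne_zero
      (show hf F ^ D * tz F (-(k * ρ)) 0 0 * ψ = 1 * ψ' by rw [one_mul, hψ']) l1 l2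
    -- the class of `G`
    have hGc : S.G D φ k ∈ Cls c b (Lf k) (Rf k + (D - k)) := by
      unfold Dat.G
      apply Cls.sum
      intro n hn
      rw [mem_range] at hn
      by_cases hkn : k ≤ n
      · apply Cls.nat
        have hPn : ∀ (m : ℕ) (L' R' : ℝ) (v : HR F), v ∈ Cls c b L' R' →
            S.P ^ m * v ∈ Cls c b L' (R' + m) := by
          intro m
          induction m with
          | zero => intro L' R' v hv; simpa using hv
          | succ m ih =>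
            intro L' R' v hv
            have h5 := ih _ _ _ (Cls.mulX hv (cp ^ 2))
            rw [map_pow] at h5
            rw [pow_succ, mul_assoc]
            refine Cls.mono h5 le_rfl ?_
            push_cast
            linarith
        have hNn : ∀ (m : ℕ) (L' R' : ℝ) (v : HR F), v ∈ Cls c b L' R' →
            S.N ^ m * v ∈ Cls c b L' (R' + 3 / 2 * m) := by
          intro m
          induction m with
          | zero => intro L' R' v hv; simpa using hv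
          | succ m ih =>
            intro L' R' v hv
            have h5 := ih _ _ _ (Cls.mulY hT hv bp)
            rw [pow_succ, mul_assoc]
            refine Cls.mono h5 le_rfl ?_
            push_cast
            linarith
        have h5 := hNn (n - k) _ _ _ (hPn (D - n) _ _ _ (hφ n))
        rw [Nat.cast_sub hkn, Nat.cast_sub (by omega : n ≤ D)] at h5
        have h6 := hR k n hkn
        refine Cls.mono h5 (hL k n hkn) ?_
        linarith
      · rw [Nat.choose_eq_zero_of_lt (by omega), Nat.cast_zero, zero_mul]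
        exact Cls.zero
    obtain ⟨A, B, hA, hB, hv⟩ := hGc
    have hψ0 : ψ ≠ 0 := by
      intro h
      rw [h] at l2
      exact l2 (by simp [cf])
    have hG0 : S.G D φ k ≠ 0 := by
      intro h
      rw [h, mul_zero] at a1
      rcases mul_eq_zero.1 a1.symm with h3 | h3
      · by_cases hDk' : D - k = 0
        · rw [hDk', pow_zero] at h3
          exact one_ne_zero h3
        · have h5 : S.h = 0 := by
            exact pow_eq_zero_iff hDk' |>.1 h3
          have h8 : S.h = 1 + tz F (1 - ρ - τ) (-1) 0 := rfl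
          rw [h8] at h5
          have h9 := congrArg (fun x : HR F => cf x 0 0 0) h5
          simp only [CR.cf_add'] at h9
          rw [← tz_one, CR.cf_tz', CR.cf_tz', if_pos ⟨rfl, rfl, rfl⟩, if_neg (by
            rintro ⟨_, h, _⟩
            omega), add_zero] at h9
          simp [cf] at h9
      · rcases mul_eq_zero.1 h3 with h4 | h4
        · apply (lV.ne one_ne_zero)
          unfold Dat.V
          by_cases hk0 : k = 0
          · rw [hk0, pow_zero] at h4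
            exact absurd h4 one_ne_zero
          · rw [pow_eq_zero_iff hk0 |>.1 h4, zero_mul]
        · exact hψ0 h4
    obtain ⟨β, e1, e2, he, r1, r2, r3, r4⟩ := norm 0 A B _ _ hA hB (by rw [← hv]; exact hG0)
    rw [← hv] at r1 r2 r3 r4
    have hb' : Bd τ ψ' := by
      rw [hψ']
      exact (bhf.mul Bd.tz).mul hψT
    have heq : S.q ^ D * S.G D φ k = (1 + tz F (1 - ρ - τ) (-1) 0) ^ (D - k) *
        ((xi F τ - tz F ρ 0 0) ^ k * ψ') := by
      rw [hψ']
      have a1' : (2 : HR F) ^ D * ((tz F ρ 0 0) ^ k * (S.q ^ D * S.G D φ k)) =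
          (1 + tz F (1 - ρ - τ) (-1) 0) ^ (D - k) * ((xi F τ - tz F ρ 0 0) ^ k * ψ) := by
        have : (2 * S.q) ^ D * S.ξp ^ k = 2 ^ D * ((tz F ρ 0 0) ^ k * S.q ^ D) := by
          rw [mul_pow]
          show 2 ^ D * S.q ^ D * (tz F ρ 0 0) ^ k = _
          ring
        rw [this] at a1
        have h8 : S.h = 1 + tz F (1 - ρ - τ) (-1) 0 := rfl
        have h9 : S.ξ - S.ξp = xi F τ - tz F ρ 0 0 := rfl
        rw [← h8, ← h9, ← a1]
        ring
      linear_combination (hf F ^ D * tz F (-(k * ρ)) 0 0) * a1' -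
        (S.q ^ D * S.G D φ k) * (htz k) -
        (tz F ρ 0 0 ^ k * tz F (-(k * ρ)) 0 0 * S.q ^ D * S.G D φ k) * htwo
    have hkey := key_range h0 hτρ hρ (k := k) (m := D - k) r1 r2 r3 r4 (nq'.u.pow D) heq hb'
    obtain ⟨b0, b1, b2⟩ := hkey _ _ _ m1 m2
    rw [hDk] at b1 b2
    push_cast at b1 b2
    rw [hDk] at b1 b2
    obtain ⟨W, hW⟩ : ∃ W, W = Rf k - Lf k := ⟨_, rfl⟩
    have hE : (e1 : ℝ) + e2 ≤ 2 * W + 2 * (D - k) := by
      rw [hW]
      linarith
    rw [← hW]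
    refine ⟨b0, ?_, ?_⟩
    · have := mul_le_mul_of_nonneg_right hE hτ1.le
      linarith
    · have := mul_le_mul_of_nonneg_right hE h0.le
      linarith

end Pool.Agent.L7h91.TW
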