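import Pool.Agent.L7h91.TWS.AsmS
import Pool.Agent.L7h91.TW.Fin2

/-!
# Emptiness and independence outside a window of bounded length, for one open set of points
-/

set_option autoImplicit false

namespace Pool.Agent.L7h91.TW

open MvPolynomial Pool.Agent.TH3.IR Pool.Agent.L7h91.IR
open scoped LinearAlgebra.Projectivization
open Pool.Agent.H350R3.MG

/-- independence in one degree -/
theorem indepX {E k : ℕ} (hE : 2 ≤ E) (hk : Large (E + 1) k) (m d : ℕ)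
    (hd : (k : ℝ) ^ ((1 : ℝ) / ((E + 1 : ℕ) : ℝ)) * (m + E) + E + 3 / 2 ≤ d) :
    ∃ F : MvPolynomial (Fin k × Fin (E + 1)) ℂ, F ≠ 0 ∧ ∀ P : Fin k → Fin (E + 1) → ℂ,
      MvPolynomial.eval (fun q : Fin k × Fin (E + 1) => P q.1 q.2) F ≠ 0 →
      H932R5.SurjAt (fun _ : Fin k => m) P d := by
  obtain ⟨s, rfl⟩ : ∃ s, E = s + 1 + 1 := ⟨E - 2, by omega⟩
  obtain ⟨x, hx2, hx1, hxk, hxκ⟩ := root (p := s + 1) hk.le
  have hx0 : 0 < x := by linarith
  have h1 : (k : ℝ) ^ ((1 : ℝ) / ((s + 1 + 1 + 1 : ℕ) : ℝ)) = x := hx1.symm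
  rw [h1] at hd
  have hc := cond_exact (s := s) hx2 hxk hk
  have hxs : 0 < x ^ s := by positivity
  apply forms_of_surS
  refine SurS_simplexX (ι := Fin k) (σ := Fin (s + 1 + 1)) ?_ m (β := x) hx2 ?_ ?_ d ?_
  · rw [Fintype.card_fin]
    omega
  · rw [Fintype.card_fin, Nat.add_sub_cancel_right (n := s) (m := 2)]
    have e1 : 2 * (1 + 1 / (8 * x ^ s)) = 2 + 1 / (4 * x ^ s) := by
      field_simp
      ring
    rw [e1]
    have e2 : 1 / (4 * x ^ s) ≤ x - 2 := by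
      rw [div_le_iff₀ (by positivity)]
      linarith
    linarith
  · rw [Fintype.card_fin, Fintype.card_fin]
    exact hxk
  · rw [Fintype.card_fin]
    exact hd

/-- independence for one open set of points -/
theorem windowI {E k : ℕ} (hE : 2 ≤ E) (hk : Large (E + 1) k) (w : Fin k → ℕ) :
    ∃ F : MvPolynomial (Fin k × Fin (E + 1)) ℂ, F ≠ 0 ∧ ∀ P : Fin k → Fin (E + 1) → ℂ,
      MvPolynomial.eval (fun q : Fin k × Fin (E + 1) => P q.1 q.2) F ≠ 0 → ∀ d : ℕ,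
        (∀ i, (k : ℝ) ^ ((1 : ℝ) / ((E + 1 : ℕ) : ℝ)) * (w i + E) + E + 3 / 2 ≤ d) →
          H932R5.SurjAt w P d := by
  classical
  have hk1 : 0 < k := lt_of_lt_of_le (by positivity) hk.le
  have : Nonempty (Fin k) := ⟨⟨0, hk1⟩⟩
  obtain ⟨m, hm, i0, hi0⟩ : ∃ M : ℕ, (∀ i, w i ≤ M) ∧ ∃ i, w i = M := by
    refine ⟨Finset.univ.sup w, fun i => Finset.le_sup (Finset.mem_univ i), ?_⟩
    obtain ⟨i, _, hi⟩ := Finset.exists_mem_eq_sup (Finset.univ : Finset (Fin k))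
      Finset.univ_nonempty w
    exact ⟨i, hi.symm⟩
  obtain ⟨D, hD⟩ : ∃ D : ℕ, D = ⌈(k : ℝ) ^ ((1 : ℝ) / ((E + 1 : ℕ) : ℝ)) * (m + E) + E + 3 / 2⌉₊ :=
    ⟨_, rfl⟩
  obtain ⟨F, hF, h⟩ := indepX hE hk m D (by rw [hD]; exact Nat.le_ceil _)
  refine ⟨F, hF, fun P hP d hd => ?_⟩
  have h1 : D ≤ d := by
    rw [hD, Nat.ceil_le]
    have := hd i0
    rw [hi0] at this
    exact this
  exact ((h P hP).mono_w hm).mono_d h1

/-- the window for one open set of points -/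
theorem main6 {r k : ℕ} (hr : 3 ≤ r) (hk : Large r k) (w : Fin k → ℕ) :
    Generally (fun P : Fin k → ℙ ℂ (Fin (r + 1) → ℂ) => ∀ d : ℕ,
      (kap r k * d < ∑ i, (w i : ℝ) →
        pforms d w P = ⊥ ∧ (d + r).choose r ≤ ∑ i, (w i + r - 1).choose r) ∧
      ((∀ i, (k : ℝ) ^ ((1 : ℝ) / (r : ℝ)) * (w i + r - 1) + r + 1 / 2 ≤ d) →
        ∑ i, (w i + r - 1).choose r + Module.finrank ℂ ↥(pforms d w P) = (d + r).choose r)) := by
  obtain ⟨s, rfl⟩ : ∃ s, r = s + 3 := ⟨r - 3, by omega⟩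
  obtain ⟨F1, hF1, a⟩ := windowE (E := s + 2) (by omega) hk w
  obtain ⟨F2, hF2, b⟩ := windowI (E := s + 2) (by omega) hk w
  refine generally_of_affine (F1 * F2) (mul_ne_zero hF1 hF2) fun P hv hP d => ?_
  rw [map_mul] at hP
  have h1 := a P (left_ne_zero_of_mul hP) d
  have h3 := b P (right_ne_zero_of_mul hP) d
  rw [pforms_cons (E := s + 2)]
  have e1 : ∀ i, w i + (s + 3) - 1 = w i + (s + 2) := fun i => by omega
  have e2 : d + (s + 3) = d + (s + 2) + 1 := by omega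
  simp only [e1, e2]
  refine ⟨fun hd => ?_, fun hd => (h3 fun i => ?_).finrank⟩
  · have h5 := vd_eq_bot (h1 hd)
    refine ⟨h5, ?_⟩
    have h6 := H932R5.finrank_ge d w P
    rw [h5, finrank_bot] at h6
    exact h6
  · have h4 := hd i
    refine le_trans (le_of_eq ?_) h4
    show (k : ℝ) ^ ((1 : ℝ) / ((s + 3 : ℕ) : ℝ)) * ((w i : ℝ) + (s + 2 : ℕ)) + (s + 2 : ℕ) + 3 / 2 = _
    push_cast
    ring

end Pool.Agent.L7h91.TW
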