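import Pool.Agent.L7h91.TWS.Fin3

/-!
# Emptiness from subsets of the points
-/

set_option autoImplicit false

namespace Pool.Agent.L7h91.TW

open MvPolynomial Pool.Agent.TH3.IR Pool.Agent.L7h91.IR
open scoped LinearAlgebra.Projectivization
open Pool.Agent.H350R3.MG

/-- emptiness from one subset of the points -/
theorem windowJ1 {E k : ℕ} (hE : 2 ≤ E) (w : Fin k → ℕ) (J : Finset (Fin k))
    (hJ : Large (E + 1) J.card) :
    ∃ F : MvPolynomial (Fin k × Fin (E + 1)) ℂ, F ≠ 0 ∧ ∀ P : Fin k → Fin (E + 1) → ℂ,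
      MvPolynomial.eval (fun q : Fin k × Fin (E + 1) => P q.1 q.2) F ≠ 0 → ∀ d : ℕ,
        kap (E + 1) J.card * d < ∑ i ∈ J, (w i : ℝ) → NoForms w P d := by
  classical
  obtain ⟨e, he⟩ : ∃ e : Fin J.card ≃ J, e = J.equivFin.symm := ⟨_, rfl⟩
  obtain ⟨F, hF, h⟩ := windowE hE hJ (fun i => w (e i))
  have hinj : Function.Injective (fun q : Fin J.card × Fin (E + 1) => ((e q.1 : Fin k), q.2)) := by
    rintro ⟨a, b⟩ ⟨a', b'⟩ hab
    simp only [Prod.mk.injEq] at hab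
    have h1 := e.injective (Subtype.ext hab.1)
    rw [h1, hab.2]
  refine ⟨rename (fun q : Fin J.card × Fin (E + 1) => ((e q.1 : Fin k), q.2)) F, ?_, ?_⟩
  · intro h0
    exact hF ((rename_injective _ hinj) (h0.trans (map_zero _).symm))
  · intro P hP d hd G hG hGm
    rw [eval_rename] at hP
    refine h (fun i => P (e i)) hP d ?_ G hG fun i => hGm (e i)
    refine lt_of_lt_of_eq hd ?_
    rw [← Finset.sum_coe_sort J]
    exact (Equiv.sum_comp e (fun i : J => (w i : ℝ))).symm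

/-- emptiness from the subsets of the points -/
theorem windowJ {E k : ℕ} (hE : 2 ≤ E) (w : Fin k → ℕ) :
    ∃ F : MvPolynomial (Fin k × Fin (E + 1)) ℂ, F ≠ 0 ∧ ∀ P : Fin k → Fin (E + 1) → ℂ,
      MvPolynomial.eval (fun q : Fin k × Fin (E + 1) => P q.1 q.2) F ≠ 0 → ∀ d : ℕ,
        (∃ J : Finset (Fin k), Large (E + 1) J.card ∧
          kap (E + 1) J.card * d < ∑ i ∈ J, (w i : ℝ)) → NoForms w P d := by
  classical
  have hA : ∀ J : Finset (Fin k), ∃ F : MvPolynomial (Fin k × Fin (E + 1)) ℂ, F ≠ 0 ∧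
      ∀ P : Fin k → Fin (E + 1) → ℂ,
      MvPolynomial.eval (fun q : Fin k × Fin (E + 1) => P q.1 q.2) F ≠ 0 → ∀ d : ℕ,
      Large (E + 1) J.card → kap (E + 1) J.card * d < ∑ i ∈ J, (w i : ℝ) → NoForms w P d := by
    intro J
    by_cases hJ : Large (E + 1) J.card
    · obtain ⟨F, hF, h⟩ := windowJ1 hE w J hJ
      exact ⟨F, hF, fun P hP d _ hd => h P hP d hd⟩
    · exact ⟨1, one_ne_zero, fun P _ d h => absurd h hJ⟩
  choose FA hFA hA' using hA
  refine ⟨∏ J : Finset (Fin k), FA J, Finset.prod_ne_zero_iff.2 fun J _ => hFA J, ?_⟩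
  rintro P hP d ⟨J, hJ, hd⟩
  rw [map_prod] at hP
  exact hA' J P (Finset.prod_ne_zero_iff.1 hP J (Finset.mem_univ J)) d hJ hd

/-- the window for one open set of points -/
theorem main7 {r k : ℕ} (hr : 3 ≤ r) (w : Fin k → ℕ) :
    Generally (fun P : Fin k → ℙ ℂ (Fin (r + 1) → ℂ) => ∀ d : ℕ,
      ((∃ J : Finset (Fin k), Large r J.card ∧ kap r J.card * d < ∑ i ∈ J, (w i : ℝ)) →
        pforms d w P = ⊥ ∧ (d + r).choose r ≤ ∑ i, (w i + r - 1).choose r) ∧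
      (Large r k → (∀ i, (k : ℝ) ^ ((1 : ℝ) / (r : ℝ)) * (w i + r - 1) + r + 1 / 2 ≤ d) →
        ∑ i, (w i + r - 1).choose r + Module.finrank ℂ ↥(pforms d w P) = (d + r).choose r)) := by
  obtain ⟨s, rfl⟩ : ∃ s, r = s + 3 := ⟨r - 3, by omega⟩
  obtain ⟨F1, hF1, a⟩ := windowJ (E := s + 2) (by omega) w
  obtain ⟨F2, hF2, b⟩ : ∃ F : MvPolynomial (Fin k × Fin (s + 2 + 1)) ℂ, F ≠ 0 ∧
      ∀ P : Fin k → Fin (s + 2 + 1) → ℂ,
      MvPolynomial.eval (fun q : Fin k × Fin (s + 2 + 1) => P q.1 q.2) F ≠ 0 → ∀ d : ℕ,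
        Large (s + 3) k → (∀ i, (k : ℝ) ^ ((1 : ℝ) / ((s + 2 + 1 : ℕ) : ℝ)) * (w i + (s + 2 : ℕ)) +
          (s + 2 : ℕ) + 3 / 2 ≤ d) → H932R5.SurjAt w P d := by
    by_cases hL : Large (s + 3) k
    · obtain ⟨F, hF, h⟩ := windowI (E := s + 2) (by omega) hL w
      exact ⟨F, hF, fun P hP d _ hd => h P hP d hd⟩
    · exact ⟨1, one_ne_zero, fun P _ d h => absurd h hL⟩
  refine generally_of_affine (F1 * F2) (mul_ne_zero hF1 hF2) fun P hv hP d => ?_
  rw [map_mul] at hP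
  have h1 := a P (left_ne_zero_of_mul hP) d
  have h3 := b P (right_ne_zero_of_mul hP) d
  rw [pforms_cons (E := s + 2)]
  have e1 : ∀ i, w i + (s + 3) - 1 = w i + (s + 2) := fun i => by omega
  have e2 : d + (s + 3) = d + (s + 2) + 1 := by omega
  simp only [e1, e2]
  refine ⟨fun hd => ?_, fun hL hd => (h3 hL fun i => ?_).finrank⟩
  · have h5 := vd_eq_bot (h1 hd)
    refine ⟨h5, ?_⟩
    have h6 := H932R5.finrank_ge d w P
    rw [h5, finrank_bot] at h6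
    exact h6
  · have h4 := hd i
    refine le_trans (le_of_eq ?_) h4
    show (k : ℝ) ^ ((1 : ℝ) / ((s + 3 : ℕ) : ℝ)) * ((w i : ℝ) + (s + 2 : ℕ)) + (s + 2 : ℕ) + 3 / 2 = _
    push_cast
    ring

end Pool.Agent.L7h91.TW
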