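import Pool.Agent.L7h91.TWS.Cnt

/-!
# Lifting of monomials
-/

set_option autoImplicit false

namespace Pool.Agent.L7h91.TW

open Finset Pool.Agent.TH603.EL Pool.Agent.TH3.IR Pool.Agent.TH3.IR.Pair Pool.Agent.TH3.IR.Lft

theorem eps_sum (E : ℤ) (k e : ℕ) : ∑ m ∈ range (k + e + 1),
    (if m ≤ k then E - 2 * m else -((k : ℤ) + 1)) =
      (k + 1) * E - k * (k + 1) - e * (k + 1) := by
  induction e with
  | zero =>
    have h : ∀ m ∈ range (k + 0 + 1), (if m ≤ k then E - 2 * (m : ℤ) else -((k : ℤ) + 1)) =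
        E - 2 * m := by
      intro m hm
      rw [mem_range] at hm
      rw [if_pos (by omega)]
    rw [Finset.sum_congr rfl h, add_zero]
    clear h
    induction k with
    | zero => simp
    | succ k ih =>
      rw [Finset.sum_range_succ, ih]
      push_cast
      ring
  | succ e ih =>
    rw [show k + (e + 1) + 1 = (k + e + 1) + 1 by ring, Finset.sum_range_succ, ih,
      if_neg (by omega)]
    push_cast
    ring

section lift

variable {F : Type} [Field F] [CharZero F]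

/-- the window of the exponents -/
noncomputable def KS (τ ρ : ℝ) (D k : ℕ) (δ : ℕ → ℤ) (m : ℕ) : Finset ℤ :=
  if m ≤ k then
    Finset.Ioc ⌊-(τ * δ m + (1 - ρ + τ) * ((D : ℝ) - 2 * m))⌋
      (⌊-(τ * δ m + (1 - ρ + τ) * ((D : ℝ) - 2 * m))⌋ + (δ m + D - 2 * m))
  else
    Finset.Ioc (⌊-(τ * (δ m - (k + 1)) + ρ * (k + 1))⌋ + (k + 1))
      (⌊-(τ * (δ m - (k + 1)) + ρ * (k + 1))⌋ + (k + 1) + (δ m - (k + 1)))

theorem card_KS (τ ρ : ℝ) (D k : ℕ) (δ : ℕ → ℤ) (m : ℕ) (hkD : k ≤ D) (hδ : (k : ℤ) + 1 ≤ δ m) :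
    ((KS τ ρ D k δ m).card : ℤ) = δ m + (if m ≤ k then (D : ℤ) - 2 * m else -((k : ℤ) + 1)) := by
  unfold KS
  split_ifs with h
  · rw [Int.card_Ioc]
    omega
  · rw [Int.card_Ioc]
    omega

theorem elift {τ ρ : ℝ} (h0 : 0 < τ) (hτρ : τ < ρ) (hρ : ρ < 1)
    (hgen : ∀ x y z : ℤ, (x ≠ 0 ∨ y ≠ 0) → (x : ℝ) * τ + y * ρ ≠ z)
    {c b : HR F} {cp bp : HK F} (hT : IsT τ c b) (hp : IsPt ρ cp bp) {g : HR F} (hg0 : g ≠ 0)
    (hg : g * (dat hT hp).V = (dat hT hp).U)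
    {af : ℕ → ℕ} {rf : ℕ → ℤ} (haf : ∀ n m : ℕ, n ≤ m → af n ≤ af m)
    (hrf : ∀ n m : ℕ, n ≤ m → rf m + ((m : ℤ) - n) ≤ rf n) {k D : ℕ} (hkD : k ≤ D)
    (hD : (k : ℤ) + 1 ≤ rf D - 2 * af D) (i0 : ℤ)
    (hi1 : -(i0 : ℝ) ≤ τ * ((rf k - 2 * af k : ℤ) : ℝ) + (1 - ρ + τ) * ((D : ℝ) - 2 * k))
    (hi2 : (i0 : ℝ) ≤ (1 - τ) * ((rf k - 2 * af k : ℤ) : ℝ) + (ρ - τ) * ((D : ℝ) - 2 * k)) :
    ∃ A B : ℕ → Polynomial (HK F),
      (∀ n, ∀ x ∈ (A n).support, n ≤ D ∧ af n ≤ x ∧ 2 * (x : ℤ) ≤ rf n) ∧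
      (∀ n, ∀ x ∈ (B n).support, n ≤ D ∧ af n ≤ x ∧ 2 * (x : ℤ) + 3 ≤ rf n) ∧
      (∀ j < k, Fs D (fun n => pv c b (A n) (B n)) g j = 0) ∧
      Low (Fs D (fun n => pv c b (A n) (B n)) g k) 0 ∧
      (Fs D (fun n => pv c b (A n) (B n)) g k).coeff 0 =
        AddMonoidAlgebra.single (i0, 0) (1 : F) := by
  classical
  obtain ⟨δ, hδ⟩ : ∃ δ : ℕ → ℤ, ∀ n, δ n = rf n - 2 * af n := ⟨fun n => _, fun n => rfl⟩
  have hδD : ∀ n ≤ D, (k : ℤ) + 1 ≤ δ n := by
    intro n hn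
    have h1 := haf n D hn
    have h2 := hrf n D hn
    rw [hδ]
    omega
  obtain ⟨M, hM⟩ : ∃ M : ℕ, M = (rf 0).toNat + 1 := ⟨_, rfl⟩
  obtain ⟨AS, hAS⟩ : ∃ AS : ℕ → Finset ℕ, ∀ n, AS n =
    Finset.Ico (af n) ((rf n + 2) / 2).toNat := ⟨fun n => _, fun n => rfl⟩
  obtain ⟨BS, hBS⟩ : ∃ BS : ℕ → Finset ℕ, ∀ n, BS n =
    Finset.Ico (af n) ((rf n - 1) / 2).toNat := ⟨fun n => _, fun n => rfl⟩
  have mAS : ∀ n x, x ∈ AS n ↔ af n ≤ x ∧ 2 * (x : ℤ) ≤ rf n := by
    intro n x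
    rw [hAS, Finset.mem_Ico]
    omega
  have mBS : ∀ n x, x ∈ BS n ↔ af n ≤ x ∧ 2 * (x : ℤ) + 3 ≤ rf n := by
    intro n x
    rw [hBS, Finset.mem_Ico]
    omega
  obtain ⟨I, hI⟩ : ∃ I : Finset (Σ _ : ℕ, ℕ ⊕ ℕ), I = (range (D + 1)).sigma
    (fun n => (AS n).disjSum (BS n)) := ⟨_, rfl⟩
  obtain ⟨T, hTd⟩ : ∃ T : Finset (Σ _ : ℕ, ℤ), T = (range (D + 1)).sigma
    (fun m => KS τ ρ D k δ m) := ⟨_, rfl⟩
  have mIA : ∀ n x, (⟨n, Sum.inl x⟩ : Σ _ : ℕ, ℕ ⊕ ℕ) ∈ I ↔ n ≤ D ∧ x ∈ AS n := by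
    intro n x
    rw [hI, Finset.mem_sigma, mem_range, Finset.inl_mem_disjSum, Nat.lt_succ_iff]
  have mIB : ∀ n x, (⟨n, Sum.inr x⟩ : Σ _ : ℕ, ℕ ⊕ ℕ) ∈ I ↔ n ≤ D ∧ x ∈ BS n := by
    intro n x
    rw [hI, Finset.mem_sigma, mem_range, Finset.inr_mem_disjSum, Nat.lt_succ_iff]
  have mT : ∀ m i, (⟨m, i⟩ : Σ _ : ℕ, ℤ) ∈ T ↔ m ≤ D ∧ i ∈ KS τ ρ D k δ m := by
    intro m i
    rw [hTd, Finset.mem_sigma, mem_range, Nat.lt_succ_iff]
  -- the number of the coordinates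
  have hcard : Fintype.card ↥T ≤ Fintype.card ↥I := by
    rw [Fintype.card_coe, Fintype.card_coe, hTd, hI, Finset.card_sigma, Finset.card_sigma]
    have h1 : ((∑ m ∈ range (D + 1), (KS τ ρ D k δ m).card : ℕ) : ℤ) =
        ∑ m ∈ range (D + 1), δ m := by
      push_cast
      have h2 : ∀ m ∈ range (D + 1), ((KS τ ρ D k δ m).card : ℤ) =
          δ m + (if m ≤ k then (D : ℤ) - 2 * m else -((k : ℤ) + 1)) := by
        intro m hm
        rw [mem_range] at hm
        exact card_KS τ ρ D k δ m hkD (hδD m (by omega))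
      rw [Finset.sum_congr rfl h2, Finset.sum_add_distrib]
      obtain ⟨e, rfl⟩ : ∃ e, D = k + e := ⟨D - k, by omega⟩
      rw [eps_sum]
      push_cast
      ring
    have h3 : ∑ m ∈ range (D + 1), δ m ≤
        ((∑ m ∈ range (D + 1), ((AS m).disjSum (BS m)).card : ℕ) : ℤ) := by
      push_cast
      apply Finset.sum_le_sum
      intro n _
      rw [Finset.card_disjSum, hAS, hBS, Nat.card_Ico, Nat.card_Ico, hδ]
      omega
    rw [← h1] at h3
    exact_mod_cast h3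
  -- the linear map
  let Xm : ((Σ _ : ℕ, ℕ ⊕ ℕ) → HK F) → ℕ → HR F := fun u m =>
    if m ≤ k then Fs D (phi c b M u) g m else phi c b M u m
  have Xm1 : ∀ u m, m ≤ k → Xm u m = Fs D (phi c b M u) g m := fun u m h => if_pos h
  have Xm2 : ∀ u m, ¬ m ≤ k → Xm u m = phi c b M u m := fun u m h => if_neg h
  have Xadd : ∀ u v m, Xm (u + v) m = Xm u m + Xm v m := by
    intro u v m
    by_cases h : m ≤ k
    · rw [Xm1 _ _ h, Xm1 _ _ h, Xm1 _ _ h, ← Fs_add]
      congr 1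
      funext n
      exact phi_add c b M u v n
    · rw [Xm2 _ _ h, Xm2 _ _ h, Xm2 _ _ h, phi_add]
  have Xsmul : ∀ (κ : HK F) u m, Xm (κ • u) m = incl κ * Xm u m := by
    intro κ u m
    by_cases h : m ≤ k
    · rw [Xm1 _ _ h, Xm1 _ _ h, ← Fs_smul]
      congr 1
      funext n
      exact phi_smul c b M κ u n
    · rw [Xm2 _ _ h, Xm2 _ _ h, phi_smul]
  let Ψ : (↥I → HK F) →ₗ[HK F] (↥T → HK F) :=
    { toFun := fun a t => prt (Xm (ext0 I a) t.1.1) (t.1.2, 0)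
      map_add' := by
        intro a a'
        funext t
        show prt (Xm (ext0 I (a + a')) t.1.1) (t.1.2, 0) = _
        rw [map_add, Xadd, prt_add]
        rfl
      map_smul' := by
        intro κ a
        funext t
        show prt (Xm (ext0 I (κ • a)) t.1.1) (t.1.2, 0) = _
        rw [map_smul, Xsmul, prt_incl_mul]
        rfl }
  have hΨ : ∀ a t, Ψ a t = prt (Xm (ext0 I a) t.1.1) (t.1.2, 0) := fun a t => rfl
  -- the supports
  have sA : ∀ (a : ↥I → HK F) n, ∀ x ∈ (polA M (ext0 I a) n).support, n ≤ D ∧ x ∈ AS n := by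
    intro a n x hx
    rw [Polynomial.mem_support_iff, polA_coeff] at hx
    rw [← mIA]
    by_contra h
    apply hx
    rw [ext0_not a h, ite_self]
  have sB : ∀ (a : ↥I → HK F) n, ∀ x ∈ (polB M (ext0 I a) n).support, n ≤ D ∧ x ∈ BS n := by
    intro a n x hx
    rw [Polynomial.mem_support_iff, polB_coeff] at hx
    rw [← mIB]
    by_contra h
    apply hx
    rw [ext0_not a h, ite_self]
  obtain ⟨Lf, hLf⟩ : ∃ Lf : ℕ → ℝ, ∀ n, Lf n = (af n : ℝ) := ⟨fun n => _, fun n => rfl⟩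
  obtain ⟨Rf, hRf⟩ : ∃ Rf : ℕ → ℝ, ∀ n, Rf n = (rf n : ℝ) / 2 := ⟨fun n => _, fun n => rfl⟩
  have hL : ∀ n m : ℕ, n ≤ m → Lf n ≤ Lf m := by
    intro n m h
    rw [hLf, hLf]
    exact_mod_cast haf n m h
  have hR : ∀ n m : ℕ, n ≤ m → Rf m + ((m : ℝ) - n) / 2 ≤ Rf n := by
    intro n m h
    rw [hRf, hRf]
    have h1 : ((rf m + ((m : ℤ) - n) : ℤ) : ℝ) ≤ rf n := by exact_mod_cast hrf n m h
    push_cast at h1
    linarith
  have hLR : ∀ n, 2 * (Rf n - Lf n) = (δ n : ℝ) := by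
    intro n
    rw [hRf, hLf, hδ]
    push_cast
    ring
  have hcls : ∀ (a : ↥I → HK F) n, phi c b M (ext0 I a) n ∈ Cls c b (Lf n) (Rf n) := by
    intro a n
    refine ⟨_, _, ?_, ?_, rfl⟩
    · intro x hx
      obtain ⟨h1, h2⟩ := (mAS n x).1 (sA a n x hx).2
      have h3 : ((2 * (x : ℤ) : ℤ) : ℝ) ≤ rf n := by exact_mod_cast h2
      push_cast at h3
      rw [hLf, hRf]
      constructor
      · exact_mod_cast h1
      · linarith
    · intro x hx
      obtain ⟨h1, h2⟩ := (mBS n x).1 (sB a n x hx).2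
      have h3 : ((2 * (x : ℤ) + 3 : ℤ) : ℝ) ≤ rf n := by exact_mod_cast h2
      push_cast at h3
      rw [hLf, hRf]
      constructor
      · exact_mod_cast h1
      · linarith
  -- the windows contain the leading exponents
  have win1 : ∀ (a : ↥I → HK F) (j : ℕ), j ≤ k →
      (∀ j' < j, Fs D (phi c b M (ext0 I a)) g j' = 0) →
      ∀ (α : ℝ) (i j' : ℤ), Low (Fs D (phi c b M (ext0 I a)) g j) α →
        cf (Fs D (phi c b M (ext0 I a)) g j) α i j' ≠ 0 → j' = 0 ∧ i ∈ KS τ ρ D k δ j := by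
    intro a j hj hz α i j' hα hij
    obtain ⟨h1, h2, h3⟩ := (elevelG h0 hτρ hρ hT hp hL hR D _ (hcls a) hg j (by omega) hz).2
      α i j' hα hij
    refine ⟨h1, ?_⟩
    unfold KS
    rw [if_pos hj]
    have h4 : 2 * (1 - τ) * (Rf j - Lf j) = (1 - τ) * δ j := by rw [← hLR]; ring
    have h5 : 2 * τ * (Rf j - Lf j) = τ * δ j := by rw [← hLR]; ring
    rw [h4] at h2
    rw [h5] at h3
    refine mem_window h3 ?_ ?_
    · push_cast
      linarith
    · intro z hz'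
      apply hgen (δ j + D - 2 * j) (-((D : ℤ) - 2 * j)) (z - ((D : ℤ) - 2 * j))
      · have := hδD j (by omega)
        omega
      · push_cast
        linarith
  have win2 : ∀ (a : ↥I → HK F) (m : ℕ), k < m → m ≤ D →
      (∀ j' < k + 1, Fs m (phi c b M (ext0 I a)) g j' = 0) →
      ∀ (α : ℝ) (i j' : ℤ), Low (phi c b M (ext0 I a) m) α →
        cf (phi c b M (ext0 I a) m) α i j' ≠ 0 → j' = 0 ∧ i ∈ KS τ ρ D k δ m := by
    intro a m hm hmD hz α i j' hα hij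
    obtain ⟨h1, h2, h3⟩ := (elevelG h0 hτρ hρ hT hp hL hR m _ (hcls a) hg (k + 1) hm hz).1
      α i j' hα hij
    refine ⟨h1, ?_⟩
    unfold KS
    rw [if_neg (by omega)]
    rw [hLR] at h2 h3
    push_cast at h2 h3
    have h4 : i - (k + 1) ∈ Finset.Ioc ⌊-(τ * (δ m - (k + 1)) + ρ * (k + 1))⌋
        (⌊-(τ * (δ m - (k + 1)) + ρ * (k + 1))⌋ + (δ m - (k + 1))) := by
      refine mem_window ?_ ?_ ?_
      · push_cast
        linarith
      · push_cast
        linarith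
      · intro z hz'
        apply hgen (δ m - (k + 1)) (k + 1) z
        · right
          omega
        · push_cast
          linarith
    rw [Finset.mem_Ioc] at h4 ⊢
    constructor <;> omega
  -- vanishing from the coordinates
  have van : ∀ (X : HR F) (K : Finset ℤ), (∀ (α : ℝ) (i j' : ℤ), Low X α → cf X α i j' ≠ 0 →
      j' = 0 ∧ i ∈ K) → (∀ i ∈ K, prt X (i, 0) = 0) → X = 0 := by
    intro X K h1 h2
    by_contra hX
    obtain ⟨α, hα, i, j', hij⟩ := exists_lead hX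
    obtain ⟨rfl, hi⟩ := h1 α i j' hα hij
    apply hij
    have h3 := h2 i hi
    have h4 : (prt X (i, 0)).coeff α = 0 := by rw [h3]; rfl
    exact h4
  have hprt1 : ∀ (a : ↥I → HK F) (j : ℕ) (i : ℤ), (hj : j ≤ k) → (h : i ∈ KS τ ρ D k δ j) →
      prt (Fs D (phi c b M (ext0 I a)) g j) (i, 0) =
        Ψ a ⟨⟨j, i⟩, (mT j i).2 ⟨hj.trans hkD, h⟩⟩ := by
    intro a j i hj h
    rw [hΨ, Xm1 _ _ hj]
  have hprt2 : ∀ (a : ↥I → HK F) (j : ℕ) (i : ℤ), ¬ j ≤ k → (hjD : j ≤ D) →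
      (h : i ∈ KS τ ρ D k δ j) → prt (phi c b M (ext0 I a) j) (i, 0) =
        Ψ a ⟨⟨j, i⟩, (mT j i).2 ⟨hjD, h⟩⟩ := by
    intro a j i hj hjD h
    rw [hΨ, Xm2 _ _ hj]
  have hinj : ∀ a, Ψ a = 0 → a = 0 := by
    intro a ha
    have z1 : ∀ j, j ≤ k → Fs D (phi c b M (ext0 I a)) g j = 0 := by
      intro j
      induction j using Nat.strong_induction_on with
      | _ j ih =>
        intro hj
        refine van _ _ (win1 a j hj fun j' hj' => ih j' hj' (by omega)) ?_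
        intro i hi
        rw [hprt1 a j i hj hi, ha]
        rfl
    have z2 : ∀ m, k < m → m ≤ D → phi c b M (ext0 I a) m = 0 := by
      by_contra hcon
      push Not at hcon
      obtain ⟨m1, hm1, hm1D, hm1z⟩ := hcon
      obtain ⟨m0, hm0⟩ : ∃ m0, m0 = Nat.findGreatest
        (fun m => k < m ∧ phi c b M (ext0 I a) m ≠ 0) D := ⟨_, rfl⟩
      have hle : m0 ≤ D := by rw [hm0]; exact Nat.findGreatest_le D
      have hsp : k < m0 ∧ phi c b M (ext0 I a) m0 ≠ 0 := by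
        rw [hm0]
        exact Nat.findGreatest_spec (P := fun m => k < m ∧ phi c b M (ext0 I a) m ≠ 0) hm1D
          ⟨hm1, hm1z⟩
      have hgr : ∀ n, m0 < n → n ≤ D → phi c b M (ext0 I a) n = 0 := by
        intro n hn hnD
        by_contra hc
        have := Nat.le_findGreatest (P := fun m => k < m ∧ phi c b M (ext0 I a) m ≠ 0) hnD
          ⟨by omega, hc⟩
        omega
      have hFs : ∀ j, Fs D (phi c b M (ext0 I a)) g j = Fs m0 (phi c b M (ext0 I a)) g j := by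
        intro j
        unfold Fs
        symm
        apply Finset.sum_subset (Finset.range_subset_range.2 (by omega))
        intro n hn hn'
        rw [mem_range] at hn hn'
        rw [hgr n (by omega) (by omega)]
        ring
      apply hsp.2
      refine van _ _ (win2 a m0 hsp.1 hle fun j' hj' => ?_) ?_
      · rw [← hFs]
        exact z1 j' (by omega)
      · intro i hi
        rw [hprt2 a m0 i (by omega) hle hi, ha]
        rfl
    have z3 : ∀ n, n ≤ D → phi c b M (ext0 I a) n = 0 := by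
      by_contra hcon
      push Not at hcon
      obtain ⟨n, hn, hnz⟩ := hcon
      obtain ⟨D', hD', h1, _, h3⟩ := Fs_top hg0 ⟨n, hn, hnz⟩
      by_cases h4 : D' ≤ k
      · exact h3 (z1 D' h4)
      · exact h1 (z2 D' (by omega) hD')
    funext s
    obtain ⟨⟨n, x⟩, hs⟩ := s
    have hnD : n ≤ D := by
      cases x with
      | inl x => exact ((mIA n x).1 hs).1
      | inr x => exact ((mIB n x).1 hs).1
    have h5 : ¬ (polA M (ext0 I a) n ≠ 0 ∨ polB M (ext0 I a) n ≠ 0) := fun h =>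
      pv_ne h0 (by linarith) hT h (z3 n hnD)
    push Not at h5
    rw [← ext0_mem a hs, Pi.zero_apply]
    cases x with
    | inl x =>
      have h6 := ((mAS n x).1 ((mIA n x).1 hs).2).2
      have h7 := hrf 0 n (Nat.zero_le n)
      have h8 := congrArg (fun P : Polynomial (HK F) => P.coeff x) h5.1
      simp only [Polynomial.coeff_zero] at h8
      rw [polA_coeff, if_pos (by omega)] at h8
      exact h8
    | inr x =>
      have h6 := ((mBS n x).1 ((mIB n x).1 hs).2).2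
      have h7 := hrf 0 n (Nat.zero_le n)
      have h8 := congrArg (fun P : Polynomial (HK F) => P.coeff x) h5.2
      simp only [Polynomial.coeff_zero] at h8
      rw [polB_coeff, if_pos (by omega)] at h8
      exact h8
  -- the exponent
  have hi0 : i0 ∈ KS τ ρ D k δ k := by
    unfold KS
    rw [if_pos le_rfl]
    rw [← hδ] at hi1 hi2
    refine mem_window hi1 ?_ ?_
    · push_cast
      linarith
    · intro z hz'
      apply hgen (δ k + D - 2 * k) (-((D : ℤ) - 2 * k)) (z - ((D : ℤ) - 2 * k))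
      · have := hδD k hkD
        omega
      · push_cast
        linarith
  obtain ⟨a, ha⟩ := lin_surj Ψ hinj hcard (Pi.single ⟨⟨k, i0⟩, (mT k i0).2 ⟨hkD, hi0⟩⟩ 1)
  have y1 : ∀ j, j < k → Fs D (phi c b M (ext0 I a)) g j = 0 := by
    intro j
    induction j using Nat.strong_induction_on with
    | _ j ih =>
      intro hj
      refine van _ _ (win1 a j hj.le fun j' hj' => ih j' hj' (by omega)) ?_
      intro i hi
      rw [hprt1 a j i hj.le hi, ha, Pi.single_eq_of_ne]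
      intro h
      have h1 := congrArg (fun s : ↥T => s.1.1) h
      exact hj.ne h1
  have y2 : ∀ i ∈ KS τ ρ D k δ k, prt (Fs D (phi c b M (ext0 I a)) g k) (i, 0) =
      if i = i0 then 1 else 0 := by
    intro i hi
    rw [hprt1 a k i le_rfl hi, ha]
    by_cases h : i = i0
    · subst h
      rw [Pi.single_eq_same, if_pos rfl]
    · rw [if_neg h, Pi.single_eq_of_ne]
      intro h'
      have h1 := congrArg (fun s : ↥T => s.1.2) h'
      exact h h1
  refine ⟨polA M (ext0 I a), polB M (ext0 I a), ?_, ?_, y1, ?_⟩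
  · intro n x hx
    obtain ⟨h1, h2⟩ := sA a n x hx
    exact ⟨h1, (mAS n x).1 h2⟩
  · intro n x hx
    obtain ⟨h1, h2⟩ := sB a n x hx
    exact ⟨h1, (mBS n x).1 h2⟩
  obtain ⟨X, hX⟩ : ∃ X, X = Fs D (phi c b M (ext0 I a)) g k := ⟨_, rfl⟩
  have hXg : Fs D (fun n => pv c b (polA M (ext0 I a) n) (polB M (ext0 I a) n)) g k = X := hX.symm
  rw [hXg]
  have hw := win1 a k le_rfl y1
  rw [← hX] at hw y2
  have hX0 : X ≠ 0 := by
    intro h
    have h1 := y2 i0 hi0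
    rw [if_pos rfl, h] at h1
    have h2 := congrArg (fun v : HK F => v.coeff 0) h1
    simp [prt] at h2
  obtain ⟨α, hα, i, j', hij⟩ := exists_lead hX0
  obtain ⟨rfl, hi⟩ := hw α i j' hα hij
  have h1 : (prt X (i, 0)).coeff α ≠ 0 := hij
  rw [y2 i hi] at h1
  have h2 : i = i0 ∧ α = 0 := by
    by_cases h : i = i0
    · rw [if_pos h, HahnSeries.coeff_one] at h1
      by_cases h' : α = 0
      · exact ⟨h, h'⟩
      · rw [if_neg h'] at h1
        exact absurd rfl h1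
    · rw [if_neg h] at h1
      exact absurd rfl h1
  obtain ⟨rfl, rfl⟩ := h2
  refine ⟨hα, ?_⟩
  ext ⟨i', j''⟩
  by_cases h3 : cf X 0 i' j'' = 0
  · have h4 : (X.coeff 0).coeff (i', j'') = 0 := h3
    rw [h4, AddMonoidAlgebra.coeff_single, Finsupp.single_apply, if_neg]
    intro h5
    rw [Prod.mk.injEq] at h5
    obtain ⟨rfl, rfl⟩ := h5
    have h6 : (prt X (i, 0)).coeff 0 = 0 := h3
    rw [y2 i hi, if_pos rfl, HahnSeries.coeff_one, if_pos rfl] at h6
    exact one_ne_zero h6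
  · obtain ⟨rfl, hi'⟩ := hw 0 i' j'' hα h3
    have h4 : (X.coeff 0).coeff (i', (0 : ℤ)) = (prt X (i', 0)).coeff 0 := rfl
    rw [h4, y2 i' hi', AddMonoidAlgebra.coeff_single, Finsupp.single_apply]
    by_cases h5 : i' = i
    · subst h5
      rw [if_pos rfl, HahnSeries.coeff_one, if_pos rfl]
      exact (if_pos rfl).symm
    · rw [if_neg h5, if_neg]
      · rfl
      · intro h6
        rw [Prod.mk.injEq] at h6
        exact h5 h6.1.symm

end lift

end Pool.Agent.L7h91.TW
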