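import Pool.Agent.L7h91.TWS.Assem

/-!
# Polynomials with given layers
-/

set_option autoImplicit false

namespace Pool.Agent.L7h91.TW

open Finset Pool.Agent.TH603.EL Pool.Agent.TH3.IR Pool.Agent.TH3.IR.Comap

section poly

variable {F : Type} [Field F] {σ : Type} [Fintype σ] [DecidableEq σ] (q l : σ)

/-- the Laurent polynomial with passive exponent `c` and parts `P n` -/
noncomputable def fP (c : σ → ℤ) (D : ℕ) (P : ℕ → Polynomial (Polynomial (HK F))) :
    (ℤ × (σ → ℤ)) →₀ Ae F :=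
  ∑ n ∈ range (D + 1), ∑ b ∈ (P n).support, ∑ x ∈ ((P n).coeff b).support,
    Finsupp.single ((x : ℤ), gam q l c b n) (Polynomial.C (((P n).coeff b).coeff x))

theorem fP_supp {c : σ → ℤ} {D : ℕ} {P : ℕ → Polynomial (Polynomial (HK F))} {m : ℤ × (σ → ℤ)}
    (hm : m ∈ (fP q l c D P).support) :
    ∃ n ≤ D, ∃ b x : ℕ, ((P n).coeff b).coeff x ≠ 0 ∧ m = ((x : ℤ), gam q l c b n) := by
  classical
  unfold fP at hm
  rw [Finsupp.mem_support_iff, Finsupp.finsetSum_apply] at hm
  obtain ⟨n, hn, h1⟩ := Finset.exists_ne_zero_of_sum_ne_zero hm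
  rw [Finsupp.finsetSum_apply] at h1
  obtain ⟨b, hb, h2⟩ := Finset.exists_ne_zero_of_sum_ne_zero h1
  rw [Finsupp.finsetSum_apply] at h2
  obtain ⟨x, hx, h3⟩ := Finset.exists_ne_zero_of_sum_ne_zero h2
  rw [mem_range, Nat.lt_succ_iff] at hn
  refine ⟨n, hn, b, x, Polynomial.mem_support_iff.1 hx, ?_⟩
  rw [Finsupp.single_apply] at h3
  by_contra h4
  rw [if_neg (fun h => h4 h.symm)] at h3
  exact h3 rfl

theorem SD.φ_C {R : Type} [CommRing R] (A : SD F R) (κ : HK F) :
    A.φ (Polynomial.C κ) = A.j (incl κ) := by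
  unfold SD.φ
  rw [Polynomial.coe_eval₂RingHom, Polynomial.eval₂_C]
  rfl

theorem SD.ev_sum {R : Type} [CommRing R] (A : SD F R) (P : Polynomial (Polynomial (HK F))) :
    A.ev P = ∑ b ∈ P.support, ∑ x ∈ (P.coeff b).support,
      A.j (incl ((P.coeff b).coeff x)) * A.xe ^ x * A.ye ^ b := by
  unfold SD.ev
  rw [Polynomial.coe_eval₂RingHom, Polynomial.eval₂_eq_sum, Polynomial.sum_def]
  refine Finset.sum_congr rfl fun b _ => ?_
  rw [Polynomial.coe_eval₂RingHom, Polynomial.eval₂_eq_sum, Polynomial.sum_def, Finset.sum_mul]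
  exact Finset.sum_congr rfl fun x _ => rfl

theorem ev_fP (hql : q ≠ l) {R : Type} [CommRing R] (A : SD F R) (pas : σ → R) {c : σ → ℤ}
    (hcq : c q = 0) (hcl : c l = 0) (D : ℕ) (P : ℕ → Polynomial (Polynomial (HK F))) :
    evR A.φ A.xe (UU q l A pas) (fP q l c D P) =
      (∏ i, pas i ^ (c i).toNat) * ∑ n ∈ range (D + 1), A.le ^ n * A.ev (P n) := by
  classical
  unfold fP
  rw [evR_sum, Finset.mul_sum]
  refine Finset.sum_congr rfl fun n _ => ?_
  rw [evR_sum, A.ev_sum, Finset.mul_sum, Finset.mul_sum]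
  refine Finset.sum_congr rfl fun b _ => ?_
  rw [evR_sum, Finset.mul_sum, Finset.mul_sum]
  refine Finset.sum_congr rfl fun x _ => ?_
  rw [evR_single, A.φ_C, prod_split q l hql, prod_split q l hql]
  have e1 : ∏ i ∈ (univ.erase q).erase l, UU q l A pas i ^ (gam q l c b n i).toNat =
      ∏ i ∈ (univ.erase q).erase l, pas i ^ (c i).toNat := by
    refine Finset.prod_congr rfl fun i hi => ?_
    rw [Finset.mem_erase, Finset.mem_erase] at hi
    unfold UU gam
    rw [if_neg hi.2.1, if_neg hi.1, Pi.add_apply, Pi.add_apply, Pi.single_eq_of_ne hi.2.1,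
      Pi.single_eq_of_ne hi.1, add_zero, add_zero]
  have e2 : UU q l A pas q = A.ye := if_pos rfl
  have e3 : UU q l A pas l = A.le := by
    unfold UU
    rw [if_neg hql.symm, if_pos rfl]
  have e4 : (gam q l c b n q).toNat = b := by
    unfold gam
    rw [Pi.add_apply, Pi.add_apply, Pi.single_eq_same, Pi.single_eq_of_ne hql, hcq, add_zero,
      zero_add, Int.toNat_natCast]
  have e5 : (gam q l c b n l).toNat = n := by
    unfold gam
    rw [Pi.add_apply, Pi.add_apply, Pi.single_eq_same, Pi.single_eq_of_ne hql.symm, hcl, zero_add,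
      zero_add, Int.toNat_natCast]
  rw [e1, e2, e3, e4, e5, hcq, hcl]
  simp only [Int.toNat_zero, pow_zero, one_mul, Int.toNat_natCast]
  ring

/-- the layer of level `j` -/
theorem tri_layer {L R lo r : ℝ} (hl : 0 ≤ lo) (hr : 3 / 2 ≤ r) (j : ℕ) {A B : Polynomial (HK F)}
    (hA : ∀ x ∈ A.support, L + 2 * lo * j + lo ≤ x ∧ (x : ℝ) ≤ R - 2 * r * j - r + 3 / 2)
    (hB : ∀ x ∈ B.support, L + 2 * lo * j + lo ≤ x ∧ (x : ℝ) ≤ R - 2 * r * j - r) :
    SN.Tri L R lo r ((Polynomial.C A + Polynomial.C B * Polynomial.X) * nod F ^ j) := by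
  apply SN.Tri.nd_pow hl hr j
  intro b x hx
  rw [Polynomial.coeff_add] at hx
  cases b with
  | zero =>
    rw [Polynomial.coeff_C_zero, Polynomial.mul_coeff_zero, Polynomial.coeff_X_zero, mul_zero,
      add_zero] at hx
    have := hA x (Polynomial.mem_support_iff.2 hx)
    push_cast
    constructor <;> linarith
  | succ b =>
    cases b with
    | zero =>
      rw [Polynomial.coeff_C_succ, zero_add, Polynomial.coeff_C_mul, zero_add,
        Polynomial.coeff_X_one, mul_one] at hx
      have := hB x (Polynomial.mem_support_iff.2 hx)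
      push_cast
      constructor <;> linarith
    | succ b =>
      rw [Polynomial.coeff_C_succ, zero_add, Polynomial.coeff_C_mul, Polynomial.coeff_X,
        if_neg (by omega), mul_zero, Polynomial.coeff_zero] at hx
      exact absurd rfl hx

end poly

end Pool.Agent.L7h91.TW
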