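import Pool.Agent.L7h91.TWS.Core
import Pool.Agent.L7h91.TW.Reg

/-!
# The step for simplices, rank version
-/

set_option autoImplicit false

namespace Pool.Agent.L7h91.TW

open Finset Pool.Agent.TH603.EL Pool.Agent.TH3.IR

theorem exists_gen (τ ρ : ℝ) {δ : ℝ} (hδ : 0 < δ) : ∃ τ' ρ' : ℝ, |τ' - τ| < δ ∧ |ρ' - ρ| < δ ∧
    ∀ x y z : ℤ, (x ≠ 0 ∨ y ≠ 0) → (x : ℝ) * τ' + y * ρ' ≠ z := by
  have h1 : (Set.range fun p : ℤ × ℤ => (p.2 : ℝ) / p.1).Countable := Set.countable_range _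
  obtain ⟨τ', hτ', hτ1, hτ2⟩ := (h1.dense_compl ℝ).exists_between (show τ < τ + δ by linarith)
  have h2 : (Set.range fun p : ℤ × ℤ × ℤ => ((p.2.2 : ℝ) - p.1 * τ') / p.2.1).Countable :=
    Set.countable_range _
  obtain ⟨ρ', hρ', hρ1, hρ2⟩ := (h2.dense_compl ℝ).exists_between (show ρ < ρ + δ by linarith)
  refine ⟨τ', ρ', ?_, ?_, ?_⟩
  · rw [abs_lt]
    constructor <;> linarith
  · rw [abs_lt]
    constructor <;> linarith
  · intro x y z hxy h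
    by_cases hy : y = 0
    · have hx : x ≠ 0 := by tauto
      have hx' : (x : ℝ) ≠ 0 := by exact_mod_cast hx
      apply hτ'
      refine ⟨(x, z), ?_⟩
      show (z : ℝ) / x = τ'
      rw [div_eq_iff hx', ← h, hy]
      push_cast
      ring
    · have hy' : (y : ℝ) ≠ 0 := by exact_mod_cast hy
      apply hρ'
      refine ⟨(x, y, z), ?_⟩
      show ((z : ℝ) - x * τ') / y = ρ'
      rw [div_eq_iff hy', ← h]
      ring

/-- the estimates -/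
theorem reg_est {t W Wm k Δ x : ℝ} (ht : 0 < t) (hk : 0 ≤ k) (hW : Wm ≤ W)
    {τ a τ' a' ε δ : ℝ} (hε : 0 < ε) (hδ0 : 0 < δ)
    (hδ : 2 * δ * (1 + 2 * |W| + 6 * |W| / t) ≤ ε)
    (hτ : |τ' - τ| < δ) (ha : |a' - a| < 2 * δ) (ha0 : 0 ≤ a') (ha1 : a' ≤ 1)
    (hΔ : (2 * Wm - k) / t < Δ + 1)
    (h1 : x ≤ (1 - τ) * (2 * Wm - t * k) + (1 - a) * ((2 * Wm - k) / t - 2 * k - 1) - ε)
    (h2 : -x ≤ τ * (2 * Wm - t * k) + a * ((2 * Wm - k) / t - 2 * k - 1) - ε) :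
    k < (2 * Wm - k) / t ∧
      x ≤ (1 - τ') * (2 * Wm - t * k) + (1 - a') * (Δ - 2 * k) ∧
      -x ≤ τ' * (2 * Wm - t * k) + a' * (Δ - 2 * k) := by
  obtain ⟨P, hP⟩ : ∃ P, P = 2 * Wm - t * k := ⟨_, rfl⟩
  obtain ⟨z, hz⟩ : ∃ z, z = (2 * Wm - k) / t := ⟨_, rfl⟩
  obtain ⟨Q, hQ⟩ : ∃ Q, Q = z - 2 * k - 1 := ⟨_, rfl⟩
  rw [← hz] at hΔ h1 h2 ⊢
  rw [← hP] at h1 h2 ⊢
  rw [← hQ] at h1 h2
  have hzt : z * t = 2 * Wm - k := by
    rw [hz]
    field_simp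
  have h3 : 0 < P + Q := by nlinarith
  have hPz : P = t * (z - k) + k := by
    rw [hP]
    linarith
  have h4 : 0 < z - k := by
    by_contra hcon
    push Not at hcon
    have : P + Q = (t + 1) * (z - k) - 1 := by
      rw [hPz, hQ]
      ring
    nlinarith
  have hP0 : 0 ≤ P := by
    rw [hPz]
    positivity
  have hWabs : W ≤ |W| := le_abs_self W
  have hP1 : P ≤ 2 * |W| := by
    rw [hP]
    nlinarith
  have hz1 : z ≤ 2 * |W| / t := by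
    rw [le_div_iff₀ ht, hzt]
    linarith
  have hz2 : 6 * |W| / t = 3 * (2 * |W| / t) := by ring
  have hz0 : 0 ≤ 2 * |W| / t := by positivity
  have hQ1 : Q ≤ 1 + 6 * |W| / t := by
    rw [hQ, hz2]
    linarith
  have hQ2 : -(1 + 6 * |W| / t) ≤ Q := by
    rw [hQ, hz2]
    linarith
  rw [abs_lt] at hτ ha
  have hQa : |Q| ≤ 1 + 6 * |W| / t := abs_le.2 ⟨hQ2, hQ1⟩
  have hPa : |P| ≤ 2 * |W| := by
    rw [abs_of_nonneg hP0]
    exact hP1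
  have h5 : |(τ' - τ) * P + (a' - a) * Q| ≤ ε := by
    calc |(τ' - τ) * P + (a' - a) * Q| ≤ |(τ' - τ) * P| + |(a' - a) * Q| := abs_add_le _ _
      _ = |τ' - τ| * |P| + |a' - a| * |Q| := by rw [abs_mul, abs_mul]
      _ ≤ δ * (2 * |W|) + (2 * δ) * (1 + 6 * |W| / t) := by
        apply add_le_add
        · exact mul_le_mul (abs_lt.2 hτ).le hPa (abs_nonneg _) hδ0.le
        · exact mul_le_mul (abs_lt.2 ha).le hQa (abs_nonneg _) (by linarith)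
      _ ≤ ε := by
        have h6 : 0 ≤ δ * |W| := by positivity
        nlinarith
  rw [abs_le] at h5
  have h6 : Q ≤ Δ - 2 * k := by
    rw [hQ]
    linarith
  refine ⟨by linarith, ?_, ?_⟩
  · have h7 : (1 - a') * Q ≤ (1 - a') * (Δ - 2 * k) :=
      mul_le_mul_of_nonneg_left h6 (by linarith)
    nlinarith [h5.1, h5.2]
  · have h7 : a' * Q ≤ a' * (Δ - 2 * k) := mul_le_mul_of_nonneg_left h6 ha0
    nlinarith [h5.1, h5.2]

/-- the step in the right position -/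
theorem SurS_twist0 {ι σ : Type} [Fintype ι] [Fintype σ] [DecidableEq σ] {w : ι → ℕ} {L R : ℝ}
    {μ ν : σ → ℝ} (hL : 0 ≤ L) (hμ : ∀ i, 0 ≤ μ i) (hν : ∀ i, 0 ≤ ν i) {q l : σ} (hql : q ≠ l)
    (hq : 3 / 2 ≤ ν q) (hl : 1 / 2 ≤ ν l) {τ a : ℝ} (h0 : 0 < τ) (hτa : τ < a) (ha : a < 1)
    {s : σ → ℝ} (hs : ∀ i, μ i + ν i = s i) {W : ℝ} (hW : R - L - s q = W) {ε : ℝ} (hε : 0 < ε)
    (h : SurS w (RegS (-(2 * W * (τ + a / (2 * s l))) + a + ε)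
      (2 * W * (1 - τ + (1 - a) / (2 * s l)) - (1 - a) - ε)
      (sm s q l τ a) (sm s q l (1 - τ) (1 - a)))) : SurS w (RegS L R μ ν) := by
  have hsl : 0 < s l := by
    have := hμ l
    rw [← hs]
    linarith
  have hs0 : ∀ i, 0 ≤ s i := fun i => by rw [← hs]; exact add_nonneg (hμ i) (hν i)
  obtain ⟨t, ht⟩ : ∃ t, t = 2 * s l := ⟨_, rfl⟩
  have ht0 : 0 < t := by rw [ht]; linarith
  obtain ⟨B, hB⟩ : ∃ B, B = 1 + 2 * |W| + 6 * |W| / t := ⟨_, rfl⟩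
  have hB0 : 0 < B := by rw [hB]; positivity
  obtain ⟨δ, hδ⟩ : ∃ δ, δ = min (ε / (2 * B)) (min (τ / 2) (min ((a - τ) / 4) ((1 - a) / 4))) :=
    ⟨_, rfl⟩
  have hδ0 : 0 < δ := by
    rw [hδ]
    refine lt_min (by positivity) (lt_min (by linarith) (lt_min (by linarith) (by linarith)))
  have hδ1 : 2 * δ * B ≤ ε := by
    have h1 : δ ≤ ε / (2 * B) := by rw [hδ]; exact min_le_left _ _
    rw [le_div_iff₀ (by positivity)] at h1
    linarith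
  have hδ2 : δ ≤ τ / 2 := by
    rw [hδ]
    exact (min_le_right _ _).trans (min_le_left _ _)
  have hδ3 : δ ≤ (a - τ) / 4 := by
    rw [hδ]
    exact ((min_le_right _ _).trans (min_le_right _ _)).trans (min_le_left _ _)
  have hδ4 : δ ≤ (1 - a) / 4 := by
    rw [hδ]
    exact ((min_le_right _ _).trans (min_le_right _ _)).trans (min_le_right _ _)
  obtain ⟨τ', ρ', hτ', hρ', hgen⟩ := exists_gen τ (1 - a + τ) hδ0
  obtain ⟨a', ha'⟩ : ∃ a', a' = 1 + τ' - ρ' := ⟨_, rfl⟩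
  have hτ2 := abs_lt.1 hτ'
  have hρ2 := abs_lt.1 hρ'
  have haa : |a' - a| < 2 * δ := by
    rw [abs_lt, ha']
    constructor <;> linarith
  have haa2 := abs_lt.1 haa
  refine SurS_core hL hμ q l hql hq hl (τ := τ') (ρ := ρ') (by linarith) (by linarith)
    (by linarith) hgen _ ?_ h
  rintro m ⟨k1, k2, k3⟩
  refine ⟨k1, ?_⟩
  obtain ⟨Cs, hCs⟩ : ∃ Cs, Cs = ∑ i ∈ (univ.erase q).erase l, s i * (m.2 i : ℝ) := ⟨_, rfl⟩
  have hsum : ∀ τ a : ℝ, ∑ x, sm s q l τ a x * (m.2 x : ℝ) =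
      4 * s q * (τ + a / t) * (m.2 q : ℝ) + (t * τ + (2 + 1 / t) * a) * (m.2 l : ℝ) +
        2 * (τ + a / t) * Cs := by
    intro τ a
    rw [sum_split q l hql, sm_q s hql, sm_l, ← ht, hCs, Finset.mul_sum]
    congr 1
    refine Finset.sum_congr rfl fun x hx => ?_
    rw [Finset.mem_erase, Finset.mem_erase] at hx
    rw [sm_i s hx.2.1 hx.1, ← ht]
    ring
  obtain ⟨Wm, hWm⟩ : ∃ Wm, Wm = W - Cs - 2 * s q * (m.2 q : ℝ) := ⟨_, rfl⟩
  have hk0 : (0 : ℝ) ≤ (m.2 l : ℝ) := by exact_mod_cast k1 l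
  have hj0 : (0 : ℝ) ≤ (m.2 q : ℝ) := by exact_mod_cast k1 q
  have hCs0 : 0 ≤ Cs := by
    rw [hCs]
    exact Finset.sum_nonneg fun i _ => mul_nonneg (hs0 i) (by exact_mod_cast k1 i)
  have hWmW : Wm ≤ W := by
    have := mul_nonneg (hs0 q) hj0
    rw [hWm]
    linarith
  rw [hsum, ← ht] at k2 k3
  obtain ⟨z, hz⟩ : ∃ z, z = (2 * Wm - (m.2 l : ℝ)) / t := ⟨_, rfl⟩
  have hk2 : -(m.1 : ℝ) ≤ τ * (2 * Wm - t * (m.2 l : ℝ)) +
      a * ((2 * Wm - (m.2 l : ℝ)) / t - 2 * (m.2 l : ℝ) - 1) - ε := by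
    refine le_trans (show -(m.1 : ℝ) ≤ 2 * W * (τ + a / t) - a - ε -
      (4 * s q * (τ + a / t) * (m.2 q : ℝ) + (t * τ + (2 + 1 / t) * a) * (m.2 l : ℝ) +
        2 * (τ + a / t) * Cs) by linarith) (le_of_eq ?_)
    rw [hWm]
    field_simp
    ring
  have hk3 : (m.1 : ℝ) ≤ (1 - τ) * (2 * Wm - t * (m.2 l : ℝ)) +
      (1 - a) * ((2 * Wm - (m.2 l : ℝ)) / t - 2 * (m.2 l : ℝ) - 1) - ε := by
    refine le_trans k3 (le_of_eq ?_)
    rw [hWm]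
    field_simp
    ring
  have hest := fun Δ hΔ => reg_est (Δ := Δ) ht0 hk0 hWmW hε hδ0 (by rw [← hB]; exact hδ1) hτ'
    haa (by linarith) (by linarith) hΔ hk3 hk2
  have hkz : (m.2 l : ℝ) < z := by
    rw [hz]
    exact (hest ((2 * Wm - (m.2 l : ℝ)) / t) (by linarith)).1
  have hz0 : 0 ≤ z := by linarith
  have hDz : ((⌊z⌋₊ : ℕ) : ℝ) ≤ z := Nat.floor_le hz0
  obtain ⟨_, e1, e2⟩ := hest ((⌊z⌋₊ : ℕ) : ℝ) (by rw [← hz]; exact Nat.lt_floor_add_one z)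
  refine ⟨⌊z⌋₊, Wm, ?_, ?_, ?_, ?_, ?_⟩
  · have h1 : (m.2 l).toNat ≤ ⌊z⌋₊ := by
      rw [Nat.le_floor_iff hz0]
      have h2 : (((m.2 l).toNat : ℤ) : ℝ) = (m.2 l : ℝ) := by
        rw [Int.toNat_of_nonneg (k1 l)]
      have h3 : (((m.2 l).toNat : ℕ) : ℝ) = (m.2 l : ℝ) := by
        rw [← h2]
        push_cast
        rfl
      rw [h3]
      exact hkz.le
    have h2 : m.2 l ≤ ((⌊z⌋₊ : ℕ) : ℤ) := by
      have := Int.toNat_of_nonneg (k1 l)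
      omega
    exact_mod_cast h2
  · simp only [hs]
    rw [hWm, ← hCs, ← hW]
    ring
  · rw [hs]
    have h1 : t * ((⌊z⌋₊ : ℕ) : ℝ) ≤ t * z := mul_le_mul_of_nonneg_left hDz ht0.le
    have h2 : t * z = 2 * Wm - (m.2 l : ℝ) := by
      rw [hz]
      field_simp
    rw [h2, ht] at h1
    linarith
  · rw [hs]
    refine le_trans e1 (le_of_eq ?_)
    rw [ha', ht]
    ring
  · rw [hs]
    refine le_trans e2 (le_of_eq ?_)
    rw [ha', ht]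
    ring

/-- the step -/
theorem SurS_twist {ι σ : Type} [Fintype ι] [Fintype σ] [DecidableEq σ] {w : ι → ℕ} {L R : ℝ}
    {μ ν : σ → ℝ} (hμ : ∀ i, 0 ≤ μ i) (hν : ∀ i, 0 ≤ ν i) {q l : σ} (hql : q ≠ l)
    (hq : 5 / 2 ≤ μ q + ν q ∨ 3 / 2 ≤ ν q) (hl : 3 / 2 ≤ μ l + ν l) {τ a : ℝ} (h0 : 0 < τ)
    (hτa : τ < a) (ha : a < 1)
    {s : σ → ℝ} (hs : ∀ i, μ i + ν i = s i) {W : ℝ} (hW : R - L - s q = W) {ε : ℝ} (hε : 0 < ε)
    (h : SurS w (RegS (-(2 * W * (τ + a / (2 * s l))) + a + ε)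
      (2 * W * (1 - τ + (1 - a) / (2 * s l)) - (1 - a) - ε)
      (sm s q l τ a) (sm s q l (1 - τ) (1 - a)))) : SurS w (RegS L R μ ν) := by
  obtain ⟨p, hp1, hp2⟩ : ∃ p : ℤ, 0 ≤ μ q + p ∧ 3 / 2 ≤ ν q - p := by
    rcases hq with hq | hq
    · refine ⟨⌈-μ q⌉, ?_, ?_⟩
      · have := Int.le_ceil (-μ q)
        linarith
      · have := Int.ceil_lt_add_one (-μ q)
        linarith
    · exact ⟨0, by simpa using hμ q, by simpa using hq⟩
  obtain ⟨p', hp1', hp2'⟩ : ∃ p : ℤ, 0 ≤ μ l + p ∧ 1 / 2 ≤ ν l - p := by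
    refine ⟨⌈-μ l⌉, ?_, ?_⟩
    · have := Int.le_ceil (-μ l)
      linarith
    · have := Int.ceil_lt_add_one (-μ l)
      linarith
  obtain ⟨P, hP⟩ : ∃ P : σ → ℤ, P = Pi.single q p + Pi.single l p' := ⟨_, rfl⟩
  have hPq : P q = p := by
    rw [hP, Pi.add_apply, Pi.single_eq_same, Pi.single_eq_of_ne hql, add_zero]
  have hPl : P l = p' := by
    rw [hP, Pi.add_apply, Pi.single_eq_same, Pi.single_eq_of_ne hql.symm, zero_add]
  have hPi : ∀ i, i ≠ q → i ≠ l → P i = 0 := by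
    intro i h1 h2
    rw [hP, Pi.add_apply, Pi.single_eq_of_ne h1, Pi.single_eq_of_ne h2, add_zero]
  obtain ⟨u, hu⟩ : ∃ u : ℤ, 0 ≤ L + u := ⟨⌈-L⌉, by
    have := Int.le_ceil (-L)
    linarith⟩
  have h' : SurS w (RegS (L + u) (R + u) (fun i => μ i + P i) (fun i => ν i - P i)) := by
    refine SurS_twist0 hu (fun i => ?_) (fun i => ?_) hql ?_ ?_ h0 hτa ha (s := s)
      (fun i => by rw [← hs]; ring) (W := W) (by rw [← hW]; ring) hε h
    · show 0 ≤ μ i + (P i : ℝ)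
      by_cases h1 : i = q
      · subst h1
        rw [hPq]
        exact hp1
      · by_cases h2 : i = l
        · subst h2
          rw [hPl]
          exact hp1'
        · rw [hPi i h1 h2, Int.cast_zero, add_zero]
          exact hμ i
    · show 0 ≤ ν i - (P i : ℝ)
      by_cases h1 : i = q
      · subst h1
        rw [hPq]
        linarith
      · by_cases h2 : i = l
        · subst h2
          rw [hPl]
          linarith
        · rw [hPi i h1 h2, Int.cast_zero, sub_zero]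
          exact hν i
    · show 3 / 2 ≤ ν q - (P q : ℝ)
      rw [hPq]
      exact hp2
    · show 1 / 2 ≤ ν l - (P l : ℝ)
      rw [hPl]
      exact hp2'
  refine h'.comap 1 (Or.inl rfl) P u ?_
  rintro ⟨x, y⟩ ⟨k1, k2, k3⟩
  simp only at k1 k2 k3
  have e1 : ∑ i, (μ i + (P i : ℝ)) * (y i : ℝ) = ∑ i, μ i * (y i : ℝ) +
      ∑ i, (P i : ℝ) * (y i : ℝ) := by
    rw [← Finset.sum_add_distrib]
    exact Finset.sum_congr rfl fun i _ => by ring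
  have e2 : ∑ i, (ν i - (P i : ℝ)) * (y i : ℝ) = ∑ i, ν i * (y i : ℝ) -
      ∑ i, (P i : ℝ) * (y i : ℝ) := by
    rw [← Finset.sum_sub_distrib]
    exact Finset.sum_congr rfl fun i _ => by ring
  rw [e1] at k2
  rw [e2] at k3
  refine ⟨k1, ?_, ?_⟩
  · show L + ∑ i, μ i * (y i : ℝ) ≤ ((1 * (x - ∑ i, P i * y i - u) : ℤ) : ℝ)
    push_cast
    linarith
  · show ((1 * (x - ∑ i, P i * y i - u) : ℤ) : ℝ) ≤ R - ∑ i, ν i * (y i : ℝ)
    push_cast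
    linarith

end Pool.Agent.L7h91.TW
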