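import Pool.Agent.L7h91.TWS.Poly
import Pool.Agent.L7h91.TW.StepC

/-!
# The step, rank version
-/

set_option autoImplicit false

namespace Pool.Agent.L7h91.TW

open Finset Pool.Agent.TH603.EL Pool.Agent.TH3.IR Pool.Agent.TH3.IR.Comap

theorem lead_io {F : Type} [Field F] {σ : Type} {u : HR F} {a : ℝ} {p : ℤ} {cx : F}
    (hu : Ld u a p cx) (γ : σ → ℤ) : Low (Mo F γ * io F σ u) a ∧
      (Mo F γ * io F σ u).coeff a = AddMonoidAlgebra.single (p, γ) cx := by
  have h1 : Low (Mo F γ) 0 := by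
    intro b hb
    unfold Mo
    rw [HahnSeries.coeff_single_of_ne hb.ne]
  have h2 : Low (io F σ u) a := by
    intro b hb
    show (AddMonoidAlgebra.mapDomainRingHom F (gh σ)) (u.coeff b) = 0
    rw [hu.1 b hb, map_zero]
  have h3 : (io F σ u).coeff a = AddMonoidAlgebra.single (p, (0 : σ → ℤ)) cx := by
    show (AddMonoidAlgebra.mapDomainRingHom F (gh σ)) (u.coeff a) = _
    rw [hu.2]
    simp [gh]
  have h4 := h1.mul h2
  have h5 := h1.coeff_mul h2
  rw [zero_add] at h4 h5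
  refine ⟨h4, ?_⟩
  rw [h5, h3]
  unfold Mo
  rw [HahnSeries.coeff_single_same, AddMonoidAlgebra.single_mul_single, one_mul]
  congr 1
  ext <;> simp

/-- the total of one polynomial -/
theorem tot_fP {F : Type} [Field F] [CharZero F] {σ : Type} [Fintype σ] [DecidableEq σ] {q l : σ}
    (hql : q ≠ l) {τ : ℝ} {c b g : HR F} (hT : IsT τ c b) {N D : ℕ} (hDN : D ≤ N)
    {cc : σ → ℤ} (hcq : cc q = 0) (hcl : cc l = 0) (hc0 : ∀ i, 0 ≤ cc i) (j k : ℕ) (hkN : k ≤ N)
    {A0 B0 : ℕ → Polynomial (HK F)} (hA : ∀ n, ∀ x ∈ (A0 n).support, n ≤ D)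
    (hB : ∀ n, ∀ x ∈ (B0 n).support, n ≤ D)
    (hz : ∀ k' < k, Fs D (fun n => pv c b (A0 n) (B0 n)) g k' = 0) {Tot : Re F σ}
    (hTot : Tot = evR (sdE σ q l (N + 1) τ c b g).φ (sdE σ q l (N + 1) τ c b g).xe
      (UU q l (sdE σ q l (N + 1) τ c b g) (pasE F σ)) (fP q l cc D (fun n =>
        (Polynomial.C (A0 n) + Polynomial.C (B0 n) * Polynomial.X) * nod F ^ j))) :
    (∀ n < (N + 1) * j + k, Tot.coeff n = 0) ∧
      Tot.coeff ((N + 1) * j + k) = Mo F (gam q l cc j k) *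
        io F σ (v0 c ^ j * Fs D (fun n => pv c b (A0 n) (B0 n)) g k) := by
  obtain ⟨A, hA'⟩ : ∃ A, A = sdE σ q l (N + 1) τ c b g := ⟨_, rfl⟩
  have hTA : IsT A.τ A.c A.b := by rw [hA']; exact hT
  have hA00 : ∀ n, D < n → A0 n = 0 := by
    intro n hn
    by_contra h
    obtain ⟨x, hx⟩ := Polynomial.support_nonempty.2 h
    have := hA n x hx
    omega
  have hB00 : ∀ n, D < n → B0 n = 0 := by
    intro n hn
    by_contra h
    obtain ⟨x, hx⟩ := Polynomial.support_nonempty.2 h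
    have := hB n x hx
    omega
  have e1 : ∏ i, pasE F σ i ^ (cc i).toNat = Polynomial.C (Mo F cc) := by
    rw [← Mo_prod hc0, map_prod]
    refine Finset.prod_congr rfl fun i _ => ?_
    rw [map_pow]
    rfl
  obtain ⟨P', hP'⟩ : ∃ P' : ℕ → Polynomial (Polynomial (HK F)), ∀ n, P' n =
    Polynomial.C (A0 n) + Polynomial.C (B0 n) * Polynomial.X := ⟨fun n => _, fun n => rfl⟩
  have e2 : Tot = Polynomial.X ^ 0 * Polynomial.C (Mo F cc) *
      (A.ev (nod F) ^ j * ∑ n ∈ range (N + 1), A.le ^ n * A.ev (P' n)) := by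
    rw [hTot, ev_fP q l hql _ _ hcq hcl, e1, pow_zero, one_mul, ← hA', Finset.mul_sum]
    rw [Finset.mul_sum, Finset.mul_sum]
    have h3 : ∀ n ∈ range (N + 1), n ∉ range (D + 1) → Polynomial.C (Mo F cc) *
        (A.ev (nod F) ^ j * (A.le ^ n * A.ev (P' n))) = 0 := by
      intro n _ hn'
      rw [mem_range] at hn'
      rw [hP', hA00 n (by omega), hB00 n (by omega)]
      simp
    rw [← Finset.sum_subset (Finset.range_subset_range.2 (by omega)) h3]
    refine Finset.sum_congr rfl fun n _ => ?_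
    rw [← hP', map_mul, map_pow]
    ring
  have hAε : A.ε = Polynomial.X := by rw [hA']; rfl
  have hAS : A.S = N + 1 := by rw [hA']; rfl
  obtain ⟨r, hr⟩ := ex_of_dvd (A.layer hTA j N P')
  rw [hAε, hAS] at hr
  obtain ⟨Z, hZ⟩ : ∃ Z : ℕ → HR F, ∀ k', Z k' = Fs D (fun n => pv c b (A0 n) (B0 n)) g k' :=
    ⟨fun k' => _, fun k' => rfl⟩
  have hFs : ∀ k', Fs N (fun n => SN.evt A.c A.b (P' n)) A.g k' = Z k' := by
    intro k'
    rw [hZ, hA']
    show Fs N (fun n => SN.evt c b (P' n)) g k' = _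
    unfold Fs
    symm
    have h3 : ∀ n ∈ range (D + 1), (n.choose k' : HR F) * pv c b (A0 n) (B0 n) * g ^ n =
        (n.choose k' : HR F) * SN.evt c b (P' n) * g ^ n := by
      intro n _
      rw [hP', evt_pair]
    rw [Finset.sum_congr rfl h3]
    apply Finset.sum_subset (Finset.range_subset_range.2 (by omega))
    intro n _ hn'
    rw [mem_range] at hn'
    rw [hP', hA00 n (by omega), hB00 n (by omega)]
    simp
  have hG : ∀ k, A.mq ^ j * A.ml ^ k *
      A.j (v0 A.c ^ j * Fs N (fun n => SN.evt A.c A.b (P' n)) A.g k) =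
      Polynomial.C (Mo F (Pi.single q 1) ^ j * Mo F (Pi.single l 1) ^ k *
          io F σ (v0 c ^ j * Z k)) := by
    intro k
    rw [hFs, Polynomial.C_mul, Polynomial.C_mul, Polynomial.C_pow, Polynomial.C_pow, hA']
    rfl
  have hco : ∀ A1, A1 < 0 + (N + 1) * j + (N + 1) → Tot.coeff A1 =
      ∑ k ∈ range (N + 1), if 0 + (N + 1) * j + k = A1 then Mo F cc *
        (Mo F (Pi.single q 1) ^ j * Mo F (Pi.single l 1) ^ k * io F σ (v0 c ^ j * Z k)) else 0 := by
    intro A1 hA1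
    rw [e2]
    exact coefA' (Mo F cc) _ r _ _ hG hr hA1
  constructor
  · intro n hn
    rw [hco n (by omega)]
    apply Finset.sum_eq_zero
    intro k' _
    by_cases h : 0 + (N + 1) * j + k' = n
    · rw [if_pos h, hZ, hz k' (by omega), mul_zero, map_zero, mul_zero, mul_zero]
    · rw [if_neg h]
  · rw [hco _ (by omega), Finset.sum_eq_single k]
    · rw [if_pos (by omega), hZ, ← mul_assoc]
      congr 1
      unfold gam
      rw [Mo_add, Mo_add, Mo_single_pow, Mo_single_pow]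
    · intro k' _ hne
      rw [if_neg (by omega)]
    · intro h
      exact absurd (mem_range.2 (by omega)) h

end Pool.Agent.L7h91.TW
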